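import Pool.Agent.D0H39.NG.Bas

set_option autoImplicit false
set_option maxHeartbeats 400000

open Set Filter Topology Metric Function
open scoped ContDiff RealInnerProductSpace NNReal

noncomputable section

namespace Pool.Agent.D0H39.NG

theorem t_LIN (htan : S_TAN) : S_LIN := by
  intro V _ _ _ k S hS z hz
  obtain ⟨F, hF, rfl⟩ := hS z hz
  refine ⟨LinearMap.range (fderiv ℝ F 0 : E k →ₗ[ℝ] V), fun a => ?_⟩
  rw [htan V k S F hF 0 a]
  simp [LinearMap.mem_range]

variable {m : ℕ}

theorem IsProjField.mem {N : Set (E m)} {P : E m → E m →L[ℝ] E m} (hP : IsProjField N P) {q : E m}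
    (hq : q ∈ N) (v : E m) : IsTan N q (P q v) := (hP.tan q hq _).2 (hP.idem q hq v)

/-- the derivative of a curve `P (c t) (d t)` -/
theorem hasDerivAt_apply {P : E m → E m →L[ℝ] E m} (hP : ContDiff ℝ ∞ P) {c d : ℝ → E m}
    {t : ℝ} {v w : E m} (hc : HasDerivAt c v t) (hd : HasDerivAt d w t) :
    HasDerivAt (fun t => P (c t) (d t)) (fderiv ℝ P (c t) v (d t) + P (c t) w) t := by
  have h1 : HasDerivAt (fun t => P (c t)) (fderiv ℝ P (c t) v) t :=
    (hP.differentiable (by simp) _).hasFDerivAt.comp_hasDerivAt t hc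
  exact h1.clm_apply hd

theorem t_CT : S_CT := by
  intro m N P hN hP
  have hset : CT N = {z : E m × E m | z.1 ∈ N ∧ P z.1 z.2 = z.2} := by
    ext z
    constructor
    · rintro ⟨h1, h2⟩
      exact ⟨h1, (hP.tan _ h1 _).1 h2⟩
    · rintro ⟨h1, h2⟩
      exact ⟨h1, (hP.tan _ h1 _).2 h2⟩
  have hPc : Continuous P := hP.smooth.continuous
  refine ⟨?_, ?_⟩
  · rw [hset]
    refine (hN.preimage continuous_fst).inter (isClosed_eq ?_ continuous_snd)
    exact (hPc.comp continuous_fst).clm_apply continuous_snd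
  · intro z hz a
    constructor
    · intro ha
      refine ⟨CT.fst ha, ?_⟩
      obtain ⟨c, h1, h2, h3, h4⟩ := ha
      have h5 : HasDerivAt c a 0 := by
        rw [← h4]
        exact (h1.differentiableAt (by simp)).hasDerivAt
      have h6 : HasDerivAt (fun t => (c t).1) a.1 0 := h5.fst
      have h7 : HasDerivAt (fun t => (c t).2) a.2 0 := h5.snd
      have h8 := hasDerivAt_apply hP.smooth h6 h7
      have h9 : (fun t => P (c t).1 (c t).2) =ᶠ[𝓝 0] fun t => (c t).2 := by
        filter_upwards [h2] with t ht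
        exact (hP.tan _ ht.1 _).1 ht.2
      have h10 := h8.congr_of_eventuallyEq h9.symm
      have h11 := h7.unique h10
      rw [h3] at h11
      exact h11
    · rintro ⟨ha1, ha2⟩
      obtain ⟨c, h1, h2, h3, h4⟩ := ha1
      have h5 : HasDerivAt c a.1 0 := by
        rw [← h4]
        exact (h1.differentiableAt (by simp)).hasDerivAt
      have h6 : HasDerivAt (fun t : ℝ => z.2 + t • a.2) a.2 0 := by
        simpa using ((hasDerivAt_id (0 : ℝ)).smul_const a.2).const_add z.2
      have h7 := hasDerivAt_apply hP.smooth h5 h6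
      have h8 : ContDiffAt ℝ ∞ (fun t : ℝ => P (c t) (z.2 + t • a.2)) 0 :=
        (hP.smooth.contDiffAt.comp (0 : ℝ) h1).clm_apply (by fun_prop)
      refine ⟨fun t => (c t, P (c t) (z.2 + t • a.2)), h1.prodMk h8, ?_, ?_, ?_⟩
      · filter_upwards [h2] with t ht
        exact ⟨ht, hP.mem ht _⟩
      · have h9 : P z.1 z.2 = z.2 := (hP.tan _ hz.1 _).1 hz.2
        simp [h3, h9]
      · have h10 := (h5.prodMk h7).deriv
        rw [h10, h3]
        simp only [zero_smul, add_zero]
        rw [← ha2]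

theorem t_SURF (htan : S_TAN) : S_SURF := by
  intro m k N P hN hNk hP z hz a b ha hb
  obtain ⟨F, hF, hF0⟩ := hNk z.1 hz.1
  have hct := (t_CT m N P hN hP).2 z hz
  obtain ⟨ha1, ha2⟩ := (hct a).1 ha
  obtain ⟨hb1, hb2⟩ := (hct b).1 hb
  rw [← hF0] at ha1 hb1
  obtain ⟨v, hv⟩ := (htan (E m) k N F hF 0 _).1 ha1
  obtain ⟨w, hw⟩ := (htan (E m) k N F hF 0 _).1 hb1
  have hFc := hF.smooth
  have hPc := hP.smooth
  have hx : ContDiff ℝ ∞ (fun y : ℝ × ℝ => F (y.1 • v + y.2 • w)) :=
    hFc.comp (by fun_prop)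
  have hp : ContDiff ℝ ∞ (fun y : ℝ × ℝ => P (F (y.1 • v + y.2 • w))
      (z.2 + y.1 • a.2 + y.2 • b.2)) := (hPc.comp hx).clm_apply (by fun_prop)
  refine ⟨fun y => (F (y.1 • v + y.2 • w), P (F (y.1 • v + y.2 • w))
      (z.2 + y.1 • a.2 + y.2 • b.2)), hx.prodMk hp, ?_, ?_, ?_⟩
  · intro y
    exact ⟨hF.mem _, hP.mem (hF.mem _) _⟩
  · have h9 : P z.1 z.2 = z.2 := (hP.tan _ hz.1 _).1 hz.2
    ext <;> simp [hF0, h9]
  · have hγ := hx.prodMk hp
    have hd := (hγ.differentiable (by simp) (0, 0)).hasFDerivAt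
    have key0 : ∀ (x : ℝ), HasDerivAt (fun t : ℝ => t * x) x 0 := by
      intro x
      simpa using (hasDerivAt_id (0 : ℝ)).mul_const x
    have key : ∀ (x y : ℝ), HasDerivAt (fun t : ℝ => (t * x, t * y)) (x, y) 0 :=
      fun x y => (key0 x).prodMk (key0 y)
    have key2 : ∀ (x y : ℝ), HasDerivAt (fun t : ℝ => F ((t * x) • v + (t * y) • w))
        (fderiv ℝ F 0 (x • v + y • w)) 0 := by
      intro x y
      have h1 : HasDerivAt (fun t : ℝ => (t * x) • v + (t * y) • w) (x • v + y • w) 0 :=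
        ((key0 x).smul_const v).add ((key0 y).smul_const w)
      have h2 : HasFDerivAt F (fderiv ℝ F 0) ((fun t : ℝ => (t * x) • v + (t * y) • w) 0) := by
        have h3 : (fun t : ℝ => (t * x) • v + (t * y) • w) 0 = 0 := by simp
        rw [h3]
        exact (hFc.differentiable (by simp) 0).hasFDerivAt
      exact h2.comp_hasDerivAt 0 h1
    have key3 : ∀ (x y : ℝ), HasDerivAt (fun t : ℝ => z.2 + (t * x) • a.2 + (t * y) • b.2)
        (x • a.2 + y • b.2) 0 := by
      intro x y
      have h1 := ((key0 x).smul_const a.2).const_add z.2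
      exact h1.add ((key0 y).smul_const b.2)
    have key4 : ∀ (x y : ℝ), fderiv ℝ (fun y : ℝ × ℝ => (F (y.1 • v + y.2 • w),
        P (F (y.1 • v + y.2 • w)) (z.2 + y.1 • a.2 + y.2 • b.2))) (0, 0) (x, y) =
        (fderiv ℝ F 0 (x • v + y • w),
          fderiv ℝ P z.1 (fderiv ℝ F 0 (x • v + y • w)) z.2 + P z.1 (x • a.2 + y • b.2)) := by
      intro x y
      have h3 : ((0, 0) : ℝ × ℝ) = (fun t : ℝ => (t * x, t * y)) 0 := by simp
      rw [h3] at hd ⊢
      have h2 := hd.comp_hasDerivAt 0 (key x y)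
      have h4 := (key2 x y).prodMk (hasDerivAt_apply hPc (key2 x y) (key3 x y))
      have h5 := h2.unique h4
      rw [h5]
      simp [hF0]
    constructor
    · rw [key4 1 0]
      ext1
      · simp [hv]
      · simp only [one_smul, zero_smul, add_zero]
        rw [hv, ← ha2]
    · rw [key4 0 1]
      ext1
      · simp [hw]
      · simp only [one_smul, zero_smul, zero_add]
        rw [hw, ← hb2]

end Pool.Agent.D0H39.NG
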