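import Pool.Agent.D0H39.NG.Stm

set_option autoImplicit false
set_option maxHeartbeats 400000

open Set Filter Topology Metric Function
open scoped ContDiff RealInnerProductSpace NNReal

noncomputable section

namespace Pool.Agent.D0H39.NG

section General

variable {V : Type} [NormedAddCommGroup V] [NormedSpace ℝ V]
variable {W : Type} [NormedAddCommGroup W] [NormedSpace ℝ W]

theorem IsPar.mem {k : ℕ} {S : Set V} {F : E k → V} (h : IsPar k S F) (s : E k) : F s ∈ S := by
  obtain ⟨U', -, h2⟩ := h.isOpen univ isOpen_univ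
  have h3 : F s ∈ F '' univ := ⟨s, mem_univ s, rfl⟩
  rw [h2] at h3
  exact h3.1

theorem IsTan.mono {S S' : Set V} (hS : S ⊆ S') {z a : V} (h : IsTan S z a) : IsTan S' z a := by
  obtain ⟨c, h1, h2, h3, h4⟩ := h
  exact ⟨c, h1, h2.mono fun _ ht => hS ht, h3, h4⟩

theorem IsTan.mem {S : Set V} {z a : V} (h : IsTan S z a) : z ∈ S := by
  obtain ⟨c, -, h2, h3, -⟩ := h
  rw [← h3]
  exact h2.self_of_nhds

/-- the velocity at time `s` of a curve in `S` -/
theorem isTan_of_curve {S : Set V} {c : ℝ → V} {s : ℝ} (h1 : ContDiffAt ℝ ∞ c s)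
    (h2 : ∀ᶠ t in 𝓝 s, c t ∈ S) : IsTan S (c s) (deriv c s) := by
  have hc : Continuous (fun t : ℝ => t + s) := by fun_prop
  have h0 : (fun t : ℝ => t + s) 0 = s := by simp
  have hd : HasDerivAt (fun t : ℝ => c (t + s)) (deriv c s) 0 := by
    have h3 : HasDerivAt c (deriv c s) (0 + s) := by
      rw [zero_add]
      exact (h1.differentiableAt (by simp)).hasDerivAt
    exact h3.comp_add_const 0 s
  refine ⟨fun t => c (t + s), ?_, ?_, by simp, hd.deriv⟩
  · have h3 : ContDiffAt ℝ ∞ c ((fun t : ℝ => t + s) 0) := by rw [h0]; exact h1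
    exact h3.comp (0 : ℝ) (by fun_prop)
  · have h3 : Tendsto (fun t : ℝ => t + s) (𝓝 0) (𝓝 s) := by
      have := hc.tendsto 0
      rwa [zero_add] at this
    exact h3.eventually h2

/-- the image of a tangent vector under a smooth map -/
theorem IsTan.image {S : Set V} {S' : Set W} {z a : V} (h : IsTan S z a) {Φ : V → W}
    (hΦ : ContDiffAt ℝ ∞ Φ z) (hS : ∀ᶠ y in 𝓝 z, y ∈ S → Φ y ∈ S') :
    IsTan S' (Φ z) (fderiv ℝ Φ z a) := by
  obtain ⟨c, h1, h2, h3, h4⟩ := h
  subst h3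
  refine ⟨fun t => Φ (c t), hΦ.comp (0 : ℝ) h1, ?_, rfl, ?_⟩
  · filter_upwards [h2, h1.continuousAt.eventually hS] with t ht ht'
    exact ht' ht
  · have h5 : HasDerivAt c a 0 := by
      rw [← h4]
      exact (h1.differentiableAt (by simp)).hasDerivAt
    exact ((hΦ.differentiableAt (by simp)).hasFDerivAt.comp_hasDerivAt 0 h5).deriv

theorem IsTan.image' {S : Set V} {S' : Set W} {z a : V} (h : IsTan S z a) {Φ : V → W}
    (hΦ : ContDiff ℝ ∞ Φ) (hS : ∀ y ∈ S, Φ y ∈ S') : IsTan S' (Φ z) (fderiv ℝ Φ z a) :=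
  h.image hΦ.contDiffAt (Eventually.of_forall hS)

theorem IsTan.smul {S : Set V} {z a : V} (h : IsTan S z a) (r : ℝ) : IsTan S z (r • a) := by
  obtain ⟨c, h1, h2, h3, h4⟩ := h
  have h5 : HasDerivAt c a ((fun t : ℝ => r * t) 0) := by
    rw [← h4]
    simp only [mul_zero]
    exact (h1.differentiableAt (by simp)).hasDerivAt
  have h6 : HasDerivAt (fun t : ℝ => r * t) r 0 := by
    simpa using (hasDerivAt_id (0 : ℝ)).const_mul r
  have hc : Tendsto (fun t : ℝ => r * t) (𝓝 0) (𝓝 0) := by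
    have : Continuous (fun t : ℝ => r * t) := by fun_prop
    simpa using this.tendsto 0
  refine ⟨fun t => c (r * t), ?_, hc.eventually h2, by simp [h3], ?_⟩
  · have h7 : ContDiffAt ℝ ∞ c ((fun t : ℝ => r * t) 0) := by simpa using h1
    exact h7.comp (0 : ℝ) (by fun_prop)
  · exact (h5.scomp (0 : ℝ) h6).deriv

theorem isTan_zero {S : Set V} {z : V} (h : z ∈ S) : IsTan S z 0 :=
  ⟨fun _ => z, contDiffAt_const, Eventually.of_forall fun _ => h, rfl, by simp⟩

end General

variable {m : ℕ}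

theorem IsTan.fst {N : Set (E m)} {S : Set (E m × E m)} (hS : ∀ z ∈ S, z.1 ∈ N) {z a : E m × E m}
    (h : IsTan S z a) : IsTan N z.1 a.1 := by
  have h1 := h.image' (S' := N) (Φ := Prod.fst) contDiff_fst hS
  have h2 : fderiv ℝ (Prod.fst : E m × E m → E m) z a = a.1 := by
    rw [fderiv_fst]; rfl
  rwa [h2] at h1

theorem CT.fst {N : Set (E m)} {z a : E m × E m} (h : IsTan (CT N) z a) : IsTan N z.1 a.1 :=
  h.fst fun _ hz => hz.1

theorem IsSymp.comp {N : Set (E m)} {ψ ψ' : E m × E m → E m × E m} (h : IsSymp N ψ)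
    (h' : IsSymp N ψ') : IsSymp N (ψ' ∘ ψ) where
  smooth := h'.smooth.comp h.smooth
  maps z hz := h'.maps _ (h.maps z hz)
  form z hz a b ha hb := by
    have h1 : fderiv ℝ (ψ' ∘ ψ) z = (fderiv ℝ ψ' (ψ z)).comp (fderiv ℝ ψ z) :=
      fderiv_comp z (h'.smooth.differentiable (by simp) _) (h.smooth.differentiable (by simp) _)
    rw [h1]
    simp only [ContinuousLinearMap.comp_apply]
    rw [h'.form _ (h.maps z hz) _ _ (ha.image' h.smooth h.maps) (hb.image' h.smooth h.maps),
      h.form z hz a b ha hb]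

end Pool.Agent.D0H39.NG
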