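import Pool.Agent.D0H39.NG.Main
import Pool.Agent.D0H13.NG.Lam
import Pool.Agent.D0H13.NG.Nag
import Pool.Agent.D0H70.NG.Cont
import Pool.Agent.D0H70.NG.Cut
import Pool.Agent.D0H70.NG.Om
import Pool.Agent.D0H84.NG.Fld
import Pool.Agent.D0H84.NG.Proj
import Pool.Agent.D0H98.NG.Lift
import Pool.Agent.D0H98.NG.Sign

/-! # Exact Lagrangian submanifolds of cotangent bundles of closed manifolds without folds -/

set_option autoImplicit false
set_option maxHeartbeats 400000

open Set Filter Topology Metric Function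
open scoped ContDiff RealInnerProductSpace NNReal

noncomputable section

namespace Pool.Agent.D0H39.NG

variable {m k : ℕ}

theorem tan : S_TAN := D0H84.NG.t_TAN

theorem lin : S_LIN := D0H84.NG.t_LIN

theorem proj : S_PROJ := D0H84.NG.t_PROJ D0H98.NG.t_EXT

theorem om_flow : S_OM := D0H70.NG.t_OM (t_SURF tan)

theorem twist_image {N : Set (E m)} (hN : IsClosedMfd k N) {Λ : Set (E m × E m)}
    (hΛ : IsLag k N Λ) {f : E m × E m → ℝ} (hf : IsPrimitive Λ f) {K : E m × E m → ℝ}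
    (hK : IsTwisting N Λ K) : IsImage N Λ :=
  twisting_image t_CT proj (D0H84.NG.t_FIELD t_CT) D0H13.NG.t_NAG D0H13.NG.t_LAM om_flow
    (D0H84.NG.t_NOV t_CT) D0H98.NG.t_LIFT D0H70.NG.t_CONT lin D0H98.NG.t_EXT D0H70.NG.t_CUT
    hN hΛ hf hK

theorem signs_image {N : Set (E m)} (hN : IsClosedMfd k N) {Λ : Set (E m × E m)}
    (hΛ : IsLag k N Λ) {f : E m × E m → ℝ} (hf : IsPrimitive Λ f) {B : E m → E m →L[ℝ] E m}
    (hB : IsSymmetricField B) (hS : HasSigns N Λ B) : IsImage N Λ := by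
  obtain ⟨K, hK⟩ := D0H98.NG.t_SIGN D0H84.NG.t_TCL m k N Λ B hΛ hB hS
  exact twist_image hN hΛ hf hK

/-! ## The conclusion -/

/-- the image of the vector `a` at `z` under the differential of `ψ` -/
def push (ψ : E m × E m → E m × E m) (z a : E m × E m) : E m × E m := fderiv ℝ ψ z a

/-- `ψ` preserves the symplectic form on the tangent vectors of the cotangent bundle of `N` -/
def PreservesForm (N : Set (E m)) (ψ : E m × E m → E m × E m) : Prop :=
  ∀ z ∈ CT N, ∀ a b, IsTan (CT N) z a → IsTan (CT N) z b →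
    om (push ψ z a) (push ψ z b) = om a b

/-- `ψ` is a smooth symplectic map of the cotangent bundle of `N` to itself -/
structure IsSymplectic (N : Set (E m)) (ψ : E m × E m → E m × E m) : Prop where
  smooth : ContDiff ℝ ∞ ψ
  maps : ∀ z ∈ CT N, ψ z ∈ CT N
  form : PreservesForm N ψ

/-- `Λ` is the image of the zero section under a symplectic diffeomorphism `ψ` of the cotangent
bundle of `N`, with the inverse `ψ'` -/
def IsImageOfZero (N : Set (E m)) (Λ : Set (E m × E m)) : Prop :=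
  ∃ ψ ψ' : E m × E m → E m × E m, IsSymplectic N ψ ∧ IsSymplectic N ψ' ∧
    (∀ z ∈ CT N, ψ' (ψ z) = z ∧ ψ (ψ' z) = z) ∧ ψ '' {z | z.1 ∈ N ∧ z.2 = 0} = Λ

theorem IsImage.zero {N : Set (E m)} {Λ : Set (E m × E m)} (h : IsImage N Λ) :
    IsImageOfZero N Λ := by
  obtain ⟨ψ, ψ', h1, h2, h3, h4⟩ := h
  exact ⟨ψ, ψ', ⟨h1.smooth, h1.maps, h1.form⟩, ⟨h2.smooth, h2.maps, h2.form⟩, h3, h4⟩

end Pool.Agent.D0H39.NG
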