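import Pool.Agent.D0H39.NG.Stm2
import Pool.Agent.D0H39.NL.Chart
import Pool.Agent.D0H39.NL.Lis

set_option autoImplicit false
set_option maxHeartbeats 400000

open Set Filter Topology Metric Function
open scoped ContDiff RealInnerProductSpace NNReal

noncomputable section

namespace Pool.Agent.D0H39.NG

open NL in
theorem t_CHL : S_CHL := by
  intro n Λ F hF1 Fiso Fopen
  obtain ⟨z, F0⟩ : ∃ z, F 0 = z := ⟨_, rfl⟩
  obtain ⟨Fs, -, Fimm⟩ := hF1
  rw [F0]
  obtain ⟨P, hP, hPK⟩ := exists_proj (fderiv ℝ F 0)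
  have hFd : ∀ s, HasFDerivAt F (fderiv ℝ F s) s := fun s =>
    (Fs.differentiable (by simp)).differentiableAt.hasFDerivAt
  have hhs : ContDiff ℝ ∞ (fun s => chi P (F s)) := (chiL P).contDiff.comp Fs
  have hhd : ∀ s v, fderiv ℝ (fun s => chi P (F s)) s v = chi P (fderiv ℝ F s v) := by
    intro s v
    have h1 : HasFDerivAt (fun s => chi P (F s)) ((chiL P).comp (fderiv ℝ F s)) s :=
      (chiL P).hasFDerivAt.comp s (hFd s)
    rw [h1.fderiv]
    rfl
  obtain ⟨G, ρ, hρ, G0, Gs, hG, Gopen, Gd⟩ := inverse hhs (fun v hv => by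
    rw [hhd] at hv
    exact chi_inj (Fimm 0) (Fiso 0) hP hPK v hv)
  simp only [F0] at G0 Gs hG Gopen Gd
  have hFΛ : ∀ s, F s ∈ Λ := by
    obtain ⟨U, -, hU⟩ := Fopen univ isOpen_univ
    intro s
    have : F s ∈ F '' univ := mem_image_of_mem F (mem_univ s)
    rw [hU] at this
    exact this.1
  obtain ⟨U, hU, hFU⟩ := Fopen _ Gopen
  have hzU : z ∈ U := by
    have : z ∈ F '' (G '' ball (chi P z) ρ) :=
      ⟨0, ⟨chi P z, mem_ball_self hρ, G0⟩, F0⟩
    rw [hFU] at this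
    exact this.2
  obtain ⟨r, hr, hrU⟩ := Metric.isOpen_iff.1 hU z hzU
  have hW : ∀ x ∈ ball (chi P z) ρ, mk P x (zeta P (F (G x))) = F (G x) := by
    intro x hx
    have h1 := mk_chi_zeta hP (F (G x))
    rw [hG x hx] at h1
    exact h1
  have hηs : ∀ x ∈ ball (chi P z) ρ, ContDiffAt ℝ ∞ (fun x => zeta P (F (G x))) x := by
    intro x hx
    have h1 : ContDiff ℝ ∞ (fun s => zeta P (F s)) := (zetaL P).contDiff.comp Fs
    exact h1.contDiffAt.comp x (Gs x hx)
  have hGd : ∀ x ∈ ball (chi P z) ρ, HasFDerivAt G (fderiv ℝ G x) x := fun x hx =>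
    ((Gs x hx).differentiableAt (by simp)).hasFDerivAt
  have hηd : ∀ x ∈ ball (chi P z) ρ, ∀ u, fderiv ℝ (fun x => zeta P (F (G x))) x u =
      zeta P (fderiv ℝ F (G x) (fderiv ℝ G x u)) := by
    intro x hx u
    have h1 : HasFDerivAt (fun x => F (G x)) ((fderiv ℝ F (G x)).comp (fderiv ℝ G x)) x :=
      (hFd (G x)).comp x (hGd x hx)
    have h2 : HasFDerivAt (fun x => zeta P (F (G x)))
        ((zetaL P).comp ((fderiv ℝ F (G x)).comp (fderiv ℝ G x))) x :=
      (zetaL P).hasFDerivAt.comp x h1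
    rw [h2.fderiv]
    rfl
  have hχd : ∀ x ∈ ball (chi P z) ρ, ∀ u,
      chi P (fderiv ℝ F (G x) (fderiv ℝ G x u)) = u := by
    intro x hx u
    have h1 : HasFDerivAt (fun x => F (G x)) ((fderiv ℝ F (G x)).comp (fderiv ℝ G x)) x :=
      (hFd (G x)).comp x (hGd x hx)
    have h2 : HasFDerivAt (fun x => chi P (F (G x)))
        ((chiL P).comp ((fderiv ℝ F (G x)).comp (fderiv ℝ G x))) x :=
      (chiL P).hasFDerivAt.comp x h1
    have h3 : HasFDerivAt (fun x => chi P (F (G x))) (ContinuousLinearMap.id ℝ (E n)) x := by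
      refine (hasFDerivAt_id x).congr_of_eventuallyEq ?_
      filter_upwards [isOpen_ball.mem_nhds hx] with y hy
      exact hG y hy
    have h4 := h2.unique h3
    exact congrArg (fun T : E n →L[ℝ] E n => T u) h4
  refine ⟨P, fun x => zeta P (F (G x)), ρ, r, hP, hρ, hr, fun x hx => (hηs x hx).contDiffWithinAt,
    ?_, fun x hx => ?_, fun w hw hwz => ?_, fun x hx u v => ?_, fun k hk => ?_⟩
  · show mk P (chi P z) (zeta P (F (G (chi P z)))) = z
    rw [hW _ (mem_ball_self hρ), G0, F0]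
  · show mk P x (zeta P (F (G x))) ∈ Λ
    rw [hW x hx]
    exact hFΛ _
  · have h1 : w ∈ F '' (G '' ball (chi P z) ρ) := by
      rw [hFU]
      exact ⟨hw, hrU (by rw [mem_ball, dist_eq_norm]; exact hwz)⟩
    obtain ⟨_, ⟨x, hx, rfl⟩, rfl⟩ := h1
    have h2 : chi P (F (G x)) = x := hG x hx
    refine ⟨by rw [h2]; exact hx, ?_⟩
    show mk P (chi P (F (G x))) (zeta P (F (G (chi P (F (G x)))))) = F (G x)
    rw [h2, hW x hx]
  · rw [hηd x hx u, hηd x hx v]
    have h1 := Fiso (G x) (fderiv ℝ G x u) (fderiv ℝ G x v)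
    rw [← mk_chi_zeta hP (fderiv ℝ F (G x) (fderiv ℝ G x u)),
      ← mk_chi_zeta hP (fderiv ℝ F (G x) (fderiv ℝ G x v)), om_mk hP, hχd x hx u, hχd x hx v] at h1
    linarith
  · rw [hηd _ (mem_ball_self hρ) k]
    obtain ⟨v, hv⟩ := (hPK k).1 hk
    have h1 := Gd v
    have h2 : fderiv ℝ (fun s => chi P (F s)) 0 v = k := by
      rw [hhd, hv]
      simp [chi, hk]
    rw [h2] at h1
    rw [h1, G0, hv]
    simp [zeta, hk]


theorem t_GSG : S_GSG := by
  intro n Λ z P η ρ r ε M hz h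
  obtain ⟨C, r', hC, hr', h1⟩ := D0H23.NL.t_PAIR n Λ z P η ρ r ε M h
  refine ⟨C, r', hr', fun w hw hwz a ha => ?_⟩
  refine NL.os_tan (Λ := Λ) (w := w) (r := r' - ‖w - z‖) (by linarith)
    (fun y hy hyw => h1 y hy w hw ?_ hwz) ha
  have : y - z = (y - w) + (w - z) := by abel
  rw [this]
  exact (norm_add_le _ _).trans_lt (by linarith)

end Pool.Agent.D0H39.NG
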