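import Pool.Agent.D0H39.NG.Fin
import Pool.Agent.D0H39.NG.Loc
import Pool.Agent.D0H98.NL.Sign1

set_option autoImplicit false
set_option maxHeartbeats 400000

open Set Filter Topology Metric Function
open scoped ContDiff RealInnerProductSpace NNReal

noncomputable section

namespace Pool.Agent.D0H39.NG

variable {m k : ℕ}

/-- vertical tangent vectors are tangent to the fibre -/
theorem tan_vert {N : Set (E m)} (hNc : IsCompact N) (hN : IsMfd k N) {z : E m × E m}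
    (hz : z ∈ CT N) {a : E m} (ha : IsTan (CT N) z (0, a)) : IsTan N z.1 a := by
  obtain ⟨P, hP⟩ := proj m k N hNc hN
  have h1 := (((t_CT m N P hNc.isClosed hP).2 z hz (0, a)).1 ha).2
  simp only [map_zero, ContinuousLinearMap.zero_apply, zero_add] at h1
  exact (hP.tan z.1 hz.1 a).2 h1.symm

theorem signs_of (hflat : S_FLAT) (hfpar : S_FPAR) (hfpt : S_FPT) (hsgn : S_SGN) (htwo : S_TWO)
    {N : Set (E m)} (hNc : IsCompact N) (hN : IsMfd k N) {Λ : Set (E m × E m)}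
    (hΛ : IsLag k N Λ)
    (h : ∀ z ∈ Λ, IsVertical Λ z → (IsSimpleAt Λ z ∨ IsSemidefiniteAt Λ z) ∧
      (IsInjectiveAt Λ z ∨ IsThinAt Λ z)) :
    HasSigns N Λ (fun _ => ContinuousLinearMap.id ℝ (E m)) := by
  -- the signs
  have hex : ∀ z ∈ Λ, IsVertical Λ z → SignedAt Λ z 1 ∨ SignedAt Λ z (-1) := by
    intro z hz hv
    obtain ⟨h1 | h1, h2⟩ := h z hz hv
    · obtain ⟨F, κ, w₀, hκ, rfl⟩ := hflat m k N hN z (hΛ.sub hz)
      obtain ⟨p1, p2, p3, p4, p5, -⟩ := hfpt m k N F κ Λ hκ hΛ w₀ hz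
      obtain ⟨G, G0, g1, g2, g3⟩ := hfpar m k N F κ Λ hκ hΛ w₀ hz
      obtain ⟨P, η, ρ, r, hc⟩ := t_CHL k (κ ⁻¹' Λ) G g1 g2 g3
      rw [G0] at hc
      obtain ⟨ρ₁, r₁, ε, M, hg⟩ : ∃ ρ₁ r₁ ε M : ℝ, NL.IsGood (κ ⁻¹' Λ) w₀ P η ρ₁ r₁ ε M := by
        rcases h2 with h2 | h2
        · exact D0H98.NL.t_SIGN1 NL.t_SHRINK k (κ ⁻¹' Λ) w₀ P η ρ r hc (p2 h1) (p4 h2)
        · exact hsgn k (κ ⁻¹' Λ) w₀ P η ρ r hc (p2 h1) (p5 h2)
      have h3 := t_GSG k (κ ⁻¹' Λ) w₀ P η ρ₁ r₁ ε M hz hg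
      have h4 := (p3 ε hg.eps).1 h3
      rcases hg.eps with rfl | rfl
      · exact Or.inl h4
      · exact Or.inr h4
    · exact h1
  have hnb : ∀ z ∈ Λ, IsVertical Λ z → SignedAt Λ z 1 → ¬ SignedAt Λ z (-1) := by
    intro z hz hv h3 h4
    obtain ⟨-, h2⟩ := h z hz hv
    obtain ⟨F, κ, w₀, hκ, rfl⟩ := hflat m k N hN z (hΛ.sub hz)
    obtain ⟨p1, p2, p3, p4, p5, p6⟩ := hfpt m k N F κ Λ hκ hΛ w₀ hz
    obtain ⟨G, G0, g1, g2, g3⟩ := hfpar m k N F κ Λ hκ hΛ w₀ hz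
    obtain ⟨P, η, ρ, r, hc⟩ := t_CHL k (κ ⁻¹' Λ) G g1 g2 g3
    rw [G0] at hc
    obtain ⟨h5, h6⟩ := htwo k (κ ⁻¹' Λ) w₀ P η ρ r hz hc (p1.2 hv) ((p3 1 (Or.inl rfl)).2 h3)
      ((p3 (-1) (Or.inr rfl)).2 h4)
    rcases h2 with h2 | h2
    · exact h5 (p4 h2)
    · obtain ⟨δ, hδ, h7⟩ := p6 h6
      obtain ⟨W, -, -, hW, hWc⟩ := h2 δ hδ
      obtain ⟨y, hy1, hy2, hy3⟩ := hWc.nonempty
      exact hy3 (h7 y hy1 (hW y hy2))
  have hnear : ∀ z w : E m × E m, ∀ ε C r : ℝ, ‖w - z‖ < r →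
      (∀ y ∈ Λ, ‖y - z‖ < r → ∀ a, IsTan Λ y a → -C * ‖a.1‖ ^ 2 ≤ ε * ⟪a.1, a.2⟫) →
      SignedAt Λ w ε := by
    intro z w ε C r hw h3
    refine ⟨C, r - ‖w - z‖, by linarith, fun y hy hyw a ha => h3 y hy ?_ a ha⟩
    have : y - z = (y - w) + (w - z) := by abel
    rw [this]
    exact (norm_add_le _ _).trans_lt (by linarith)
  classical
  refine ⟨fun z => if SignedAt Λ z 1 then 1 else -1, fun z => ?_, fun z hz hv => ?_⟩
  · by_cases h3 : SignedAt Λ z 1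
    · exact Or.inl (if_pos h3)
    · exact Or.inr (if_neg h3)
  · obtain ⟨ε, hε, hσ, C, r, hr, h3⟩ : ∃ ε : ℝ, (ε = 1 ∨ ε = -1) ∧
        (if SignedAt Λ z 1 then (1 : ℝ) else -1) = ε ∧ SignedAt Λ z ε := by
      by_cases h3 : SignedAt Λ z 1
      · exact ⟨1, Or.inl rfl, if_pos h3, h3⟩
      · exact ⟨-1, Or.inr rfl, if_neg h3, (hex z hz hv).resolve_left h3⟩
    refine ⟨C, r, hr, fun w hw hwz => ⟨fun hvw => ?_, fun a ha => ?_⟩, fun a ha hab => ?_⟩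
    · have h4 := hnear z w ε C r hwz h3
      show (if SignedAt Λ w 1 then (1 : ℝ) else -1) = (if SignedAt Λ z 1 then (1 : ℝ) else -1)
      rw [hσ]
      rcases hε with rfl | rfl
      · exact if_pos h4
      · exact if_neg fun h5 => hnb w hw hvw h5 h4
    · show _ ≤ (if SignedAt Λ z 1 then (1 : ℝ) else -1) * _
      rw [hσ]
      exact h3 w hw hwz a ha
    · have h4 := hab a (tan_vert hNc hN (hΛ.sub hz) (ha.mono hΛ.sub))
      exact inner_self_eq_zero.1 h4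

theorem isSymmetricField_id : IsSymmetricField (fun _ : E m => ContinuousLinearMap.id ℝ (E m)) :=
  ⟨contDiff_const, fun _ _ _ => rfl⟩

end Pool.Agent.D0H39.NG
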