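import Pool.Agent.D0H39.NG.Fin
import Pool.Agent.D0H39.NG.Main2
import Pool.Agent.D0H7.NG.Fpar
import Pool.Agent.D0H65.NG.Fpt
import Pool.Agent.D0H96.NG.Flat
import Pool.Agent.D0H98.NG.Fest
import Pool.Agent.D0H98.NG.Sgn
import Pool.Agent.D0H98.NG.Two

/-! # Exact Lagrangian submanifolds with locally injective projections or small caustics -/

set_option autoImplicit false
set_option maxHeartbeats 400000

open Set Filter Topology Metric Function
open scoped ContDiff RealInnerProductSpace NNReal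

noncomputable section

namespace Pool.Agent.D0H39.NG

variable {m k : ℕ}

theorem caustic_image {N : Set (E m)} (hN : IsClosedMfd k N) {Λ : Set (E m × E m)}
    (hΛ : IsLag k N Λ) {f : E m × E m → ℝ} (hf : IsPrimitive Λ f)
    (h : ∀ z ∈ Λ, IsVertical Λ z → (IsSimpleAt Λ z ∨ IsSemidefiniteAt Λ z) ∧
      (IsInjectiveAt Λ z ∨ IsThinAt Λ z)) : IsImageOfZero N Λ :=
  (signs_image hN hΛ hf isSymmetricField_id
    (signs_of D0H96.NG.t_FLAT (D0H7.NG.t_FPAR D0H65.NG.t_FOM) (D0H65.NG.t_FPT D0H98.NG.t_FEST)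
      D0H98.NG.t_SGN D0H98.NG.t_TWO hN.compact hN.mfd hΛ h)).zero

end Pool.Agent.D0H39.NG
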