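import Pool.Agent.D0H39.NG.Gap
import Pool.Agent.D0H21.NG.Grp
import Pool.Agent.D0H21.NG.Uni
import Pool.Agent.D0H6.NG.Hamc
import Pool.Agent.D0H6.NG.Scl
import Pool.Agent.D0H6.NG.Sci

/-! # Exact Lagrangian submanifolds with folds and a gap in the slopes -/

set_option autoImplicit false
set_option maxHeartbeats 400000

open Set Filter Topology Metric Function
open scoped ContDiff RealInnerProductSpace NNReal

noncomputable section

namespace Pool.Agent.D0H39.NG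

variable {m k : ℕ}

theorem folds_image {N : Set (E m)} (hN : IsClosedMfd k N) {B : E m → E m →L[ℝ] E m}
    (hB : IsSymmetricField B) {δ : ℝ} (hδ : 0 < δ) : ∃ c : ℝ, 0 < c ∧
      ∀ (Λ : Set (E m × E m)) (ρ : ℝ), 0 < ρ → IsLag k N Λ → (∃ f, IsPrimitive Λ f) →
      (∀ z ∈ Λ, ‖z.2‖ ≤ c * ρ) → HasGap N Λ B ρ δ → IsImageOfZero N Λ := by
  obtain ⟨c, hc, h⟩ := gap_image D0H21.NG.t_GRP D0H21.NG.t_UNI D0H6.NG.t_HAMC D0H6.NG.t_SCL
    D0H6.NG.t_SCI hN hB hδ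
  refine ⟨c, hc, fun Λ ρ hρ hΛ hf hs hg => ?_⟩
  obtain ⟨f, hf⟩ := hf
  exact (h Λ f ρ hρ hΛ hf hs hg).zero

end Pool.Agent.D0H39.NG
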