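import Pool.Agent.D0H39.NG.Bas
import Pool.Agent.H664.Flow

set_option autoImplicit false
set_option maxHeartbeats 400000

open Set Filter Topology Metric Function
open scoped ContDiff RealInnerProductSpace NNReal

noncomputable section

namespace Pool.Agent.D0H39.NG

variable {V : Type} [NormedAddCommGroup V] [NormedSpace ℝ V]

theorem flow_of_bounded [CompleteSpace V] {X : V → V} (hX : ContDiff ℝ ∞ X) {K M : ℝ≥0}
    (hK : LipschitzWith K X) (hM : ∀ x, ‖X x‖ ≤ M) : ∃ φ : ℝ → V → V, IsFlow X φ := by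
  choose γ h0 h1 using fun x => H664.Flow.exists_solution hK hM x
  have hg : H664.Flow.IsFlowOf X (fun t x => γ x t) := ⟨h0, h1⟩
  refine ⟨fun t x => γ x t, ?_, h0, fun s t z => ?_, h1⟩
  · rw [contDiff_infty]
    intro n
    have h2 : ContDiff ℝ ((n + 1 : ℕ) : WithTop ℕ∞) (⟨X, hX.continuous⟩ : C(V, V)) := by
      have h3 : (((n + 1 : ℕ) : ℕ∞) : WithTop ℕ∞) ≤ ∞ := by exact_mod_cast le_top
      exact hX.of_le h3
    have h3 := H664.Flow.contDiff_flow (X := (⟨X, hX.continuous⟩ : C(V, V))) (m := n + 1)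
      (by omega) h2 (K := K) hK (g := fun t x => γ x t) hg
    exact h3.of_le (by exact_mod_cast Nat.le_succ n)
  · exact hg.add hK s t z

theorem tame [FiniteDimensional ℝ V] {W : Type} [NormedAddCommGroup W] [NormedSpace ℝ W]
    {X : V → W} (hX : ContDiff ℝ ∞ X) (hc : HasCompactSupport X) :
    ∃ K : ℝ≥0, LipschitzWith K X ∧ ∀ x, ‖X x‖ ≤ K := by
  obtain ⟨K, hK⟩ := ContDiff.lipschitzWith_of_hasCompactSupport hc hX (by simp)
  obtain ⟨M, hM⟩ := hc.exists_bound_of_continuous hX.continuous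
  refine ⟨K + M.toNNReal, hK.weaken (by simp), fun x => ?_⟩
  have h1 := hM x
  have h2 : (M : ℝ) ≤ M.toNNReal := Real.le_coe_toNNReal M
  have h3 : (0 : ℝ) ≤ K := K.2
  push_cast at h2 ⊢
  linarith

theorem t_FLOW : S_FLOW := by
  intro V _ _ _ X hX hc
  have : CompleteSpace V := FiniteDimensional.complete ℝ V
  obtain ⟨K, h1, h2⟩ := tame hX hc
  exact flow_of_bounded hX h1 h2

theorem IsFlow.unique {X : V → V} {φ : ℝ → V → V} (h : IsFlow X φ) {K : ℝ≥0}
    (hK : LipschitzWith K X) {γ : ℝ → V} (h1 : ∀ t, HasDerivAt γ (X (γ t)) t) (t : ℝ) :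
    γ t = φ t (γ 0) := by
  have h2 := ODE_solution_unique_univ (v := fun _ => X) (s := fun _ => univ) (K := K) (t₀ := 0)
    (f := γ) (g := fun t => φ t (γ 0)) (fun t => hK.lipschitzOnWith) (fun t => ⟨h1 t, trivial⟩)
    (fun t => ⟨h.deriv _ t, trivial⟩) (by simp [h.zero])
  exact congrFun h2 t

theorem t_INT : S_INT := by
  intro V _ _ _ X φ g hX hXc hφ hg hgc
  have : CompleteSpace V := FiniteDimensional.complete ℝ V
  obtain ⟨K, h1, h2⟩ := tame hX hXc
  obtain ⟨L, h3, h4⟩ := tame hg hgc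
  have hY : ContDiff ℝ ∞ (fun y : V × ℝ => (X y.1, g y.1)) := by fun_prop
  have hYL : LipschitzWith (max (K * 1) (L * 1)) (fun y : V × ℝ => (X y.1, g y.1)) :=
    (h1.comp LipschitzWith.prod_fst).prodMk (h3.comp LipschitzWith.prod_fst)
  have hYb : ∀ y : V × ℝ, ‖(X y.1, g y.1)‖ ≤ ((max K L : ℝ≥0) : ℝ) := by
    intro y
    rw [Prod.norm_def]
    push_cast
    exact max_le_max (h2 _) (h4 _)
  obtain ⟨ψ, hψ⟩ := flow_of_bounded hY hYL hYb
  have h5 : ∀ z t, (ψ t (z, 0)).1 = φ t z := by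
    intro z t
    have h6 := hφ.unique h1 (γ := fun t => (ψ t (z, 0)).1) (fun t => (hψ.deriv (z, 0) t).fst) t
    simpa [hψ.zero] using h6
  refine ⟨fun t z => (ψ t (z, 0)).2, ?_, fun z => by simp [hψ.zero], fun z t => ?_⟩
  · have h6 := hψ.smooth
    have h7 : ContDiff ℝ ∞ (fun y : ℝ × V => (y.1, ((y.2, 0) : V × ℝ))) := by fun_prop
    exact contDiff_snd.comp (h6.comp h7)
  · have h6 := (hψ.deriv (z, 0) t).snd
    simp only [h5] at h6
    exact h6

end Pool.Agent.D0H39.NG
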