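import Pool.Agent.D0H39.NG.Stm

/-!
# Exact Lagrangian submanifolds with a gap in the slopes (folds are allowed): statements
-/

set_option autoImplicit false

open Set Filter Topology Metric Function
open scoped ContDiff RealInnerProductSpace NNReal

noncomputable section

namespace Pool.Agent.D0H39.NG

variable {m : ℕ}

/-- At the scale `ρ` the tangent spaces of `Λ` stay away (by `δ`) from the Lagrangian planes
`ρ dq = -B dp`: for each tangent vector `a = (dq, dp)` of `Λ` the tangential part of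
`ρ dq + B dp` has norm at least `δ (ρ ‖dq‖ + ‖dp‖)`. -/
def HasGap (N : Set (E m)) (Λ : Set (E m × E m)) (B : E m → E m →L[ℝ] E m) (ρ δ : ℝ) : Prop :=
  ∀ z ∈ Λ, ∀ a, IsTan Λ z a → ∃ b, IsTan N z.1 b ∧ ‖b‖ ≤ 1 ∧
    δ * (ρ * ‖a.1‖ + ‖a.2‖) ≤ ⟪ρ • a.1 + B z.1 a.2, b⟫

/-- the dilation of the fibres -/
def dil (r : ℝ) (z : E m × E m) : E m × E m := (z.1, r • z.2)

/-! ## The modules -/

/-- **GP1** the differential of a flow at a fixed point where the square of the linear part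
vanishes -/
def S_GRP : Prop := ∀ (V : Type) [NormedAddCommGroup V] [NormedSpace ℝ V]
  [FiniteDimensional ℝ V] (X : V → V) (φ : ℝ → V → V), ContDiff ℝ ∞ X → IsFlow X φ →
  ∀ z, X z = 0 → ∀ a, fderiv ℝ X z (fderiv ℝ X z a) = 0 →
  ∀ t : ℝ, fderiv ℝ (φ t) z a = a + t • fderiv ℝ X z a

/-- **GP2** the linear part of the Hamiltonian field on the zero section -/
def S_ZERO : Prop := ∀ (m k : ℕ) (N : Set (E m)) (P B : E m → E m →L[ℝ] E m)
  (H : E m × E m → ℝ) (X : E m × E m → E m × E m) (φ : ℝ → E m × E m → E m × E m)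
  (h : ℝ → E m × E m → ℝ), IsClosedMfd k N → IsProjField N P → IsSymmetricField B →
  IsHam N H X φ h →
  (∀ q ∈ N, ∀ᶠ y in 𝓝 ((q, 0) : E m × E m), H y = 1 / 2 * ⟪B y.1 y.2, y.2⟫) →
  ∀ q ∈ N, X (q, 0) = 0 ∧ ∀ a : E m × E m, IsTan N q a.1 → IsTan N q a.2 →
    fderiv ℝ X (q, 0) a = (P q (B q a.2), 0)

/-- **GP3** a continuous field of linear maps which vanishes on the tangent vectors of the
cotangent bundle along the zero section is small on tangent vectors near the zero section -/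
def S_UNI : Prop := ∀ (m : ℕ) (N : Set (E m)) (P : E m → E m →L[ℝ] E m)
  (g : E m × E m → (E m × E m) →L[ℝ] E m), IsCompact N → IsProjField N P → Continuous g →
  (∀ q ∈ N, ∀ a : E m × E m, IsTan N q a.1 → IsTan N q a.2 → g (q, 0) a = 0) →
  ∀ ε : ℝ, 0 < ε → ∃ c : ℝ, 0 < c ∧ ∀ z ∈ CT N, ‖z.2‖ ≤ c → ∀ a, IsTan (CT N) z a →
    ‖g z a‖ ≤ ε * ‖a‖

/-- **GP4** the cut-off Hamiltonian -/
def S_HAMC : Prop := ∀ (m : ℕ) (N : Set (E m)) (B : E m → E m →L[ℝ] E m), IsCompact N →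
  ContDiff ℝ ∞ B → ∃ H : E m × E m → ℝ, ContDiff ℝ ∞ H ∧ HasCompactSupport H ∧
    ∀ q ∈ N, ∀ᶠ y in 𝓝 ((q, 0) : E m × E m), H y = 1 / 2 * ⟪B y.1 y.2, y.2⟫

/-- **GP5** dilations of the fibres: the Lagrangian submanifold, its tangent vectors and its
primitive -/
def S_SCL : Prop := ∀ (m k : ℕ) (N : Set (E m)) (Λ : Set (E m × E m)) (f : E m × E m → ℝ)
  (r : ℝ), IsMfd k N → 0 < r → IsLag k N Λ → IsPrimitive Λ f →
  IsLag k N (dil r '' Λ) ∧ (∃ f', IsPrimitive (dil r '' Λ) f') ∧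
    ∀ z ∈ Λ, ∀ b, IsTan (dil r '' Λ) (dil r z) b → ∃ a, IsTan Λ z a ∧ dil r a = b

/-- **GP6** dilations of the fibres and images of the zero section (conjugate by the dilation) -/
def S_SCI : Prop := ∀ (m k : ℕ) (N : Set (E m)) (Λ : Set (E m × E m)) (r : ℝ), IsMfd k N →
  0 < r → IsImage N (dil r '' Λ) → IsImage N Λ

/-- **GP7** a Lagrangian submanifold which a Hamiltonian flow frees from vertical tangencies -/
def S_FREE : Prop := ∀ (m k : ℕ) (N : Set (E m)) (Λ : Set (E m × E m)) (f : E m × E m → ℝ)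
  (H : E m × E m → ℝ) (X : E m × E m → E m × E m) (φ : ℝ → E m × E m → E m × E m)
  (h : ℝ → E m × E m → ℝ) (t : ℝ), IsClosedMfd k N → IsLag k N Λ → IsPrimitive Λ f →
  IsHam N H X φ h → (∀ z ∈ Λ, ∀ a, IsTan Λ z a → (fderiv ℝ (φ t) z a).1 = 0 → a = 0) →
  IsImage N Λ

end Pool.Agent.D0H39.NG
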