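import Pool.Agent.D0H39.NG.Fin
import Pool.Agent.D0H39.NG.Stm3

set_option autoImplicit false
set_option maxHeartbeats 400000

open Set Filter Topology Metric Function
open scoped ContDiff RealInnerProductSpace NNReal

noncomputable section

namespace Pool.Agent.D0H39.NG

/-- **GP7** -/
theorem t_FREE : S_FREE := by
  intro m k N Λ f H X φ h t hN hΛ hf hh ht
  obtain ⟨P, hP⟩ := proj m k N hN.compact hN.mfd
  have hs := symp_flow D0H13.NG.t_LAM om_flow hN.compact.isClosed hN.mfd hP hh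
  have h3 : ∀ z, φ (-t) (φ t z) = z := fun z => by rw [← hh.flow.add]; simp [hh.flow.zero]
  have h4 : ∀ z, φ t (φ (-t) z) = z := fun z => by rw [← hh.flow.add]; simp [hh.flow.zero]
  obtain ⟨hΛ', htan⟩ := t_PUSH m k N Λ (φ t) (φ (-t)) hΛ (hs t) (hs (-t)) h3 h4
  obtain ⟨f', hf'⟩ := t_PRIM m k N Λ (φ t) (φ (-t)) (h t) f hΛ (hs t).smooth (hs (-t)).smooth h3 h4
    (hh.hh.comp (f := fun z => (t, z)) (by fun_prop)) (D0H13.NG.t_LAM m N H X φ h hh t) hf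
  have hnv : ∀ z ∈ φ t '' Λ, ¬ IsVertical (φ t '' Λ) z := by
    rintro _ ⟨z, hz, rfl⟩ ⟨b, hb, hb'⟩
    obtain ⟨a, ha, hab⟩ := (htan z hz _).1 hb'
    have h5 := ht z hz a ha (by rw [hab])
    rw [h5, map_zero] at hab
    exact hb (congrArg Prod.snd hab).symm
  have hone := t_ONE D0H98.NG.t_LIFT D0H70.NG.t_CONT lin m k N _ f' hN.mfd hΛ' hnv hf'
  obtain ⟨s, hs1, hs2⟩ := t_SEC D0H98.NG.t_LIFT D0H98.NG.t_EXT m k N _ hN hΛ' hnv hone
  exact (t_TRA lin m k N _ s hN hΛ' hs1 hs2).pull (hs t) (hs (-t)) h3 h4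

end Pool.Agent.D0H39.NG
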