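import Pool.Agent.D0H39.NG.Bas

set_option autoImplicit false
set_option maxHeartbeats 400000

open Set Filter Topology Metric Function
open scoped ContDiff RealInnerProductSpace NNReal

noncomputable section

namespace Pool.Agent.D0H39.NG

variable {V : Type} [NormedAddCommGroup V] [NormedSpace ℝ V]

/-- the derivatives of inverse maps -/
theorem fderiv_inv {Φ Φ' : V → V} (h1 : ContDiff ℝ ∞ Φ) (h2 : ContDiff ℝ ∞ Φ')
    (h3 : ∀ z, Φ' (Φ z) = z) (z a : V) : fderiv ℝ Φ' (Φ z) (fderiv ℝ Φ z a) = a := by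
  have h4 : Φ' ∘ Φ = id := funext h3
  have h5 := fderiv_comp z (h2.differentiable (by simp) (Φ z)) (h1.differentiable (by simp) z)
  rw [h4, fderiv_id] at h5
  have h6 := DFunLike.congr_fun h5 a
  simpa using h6.symm

theorem tan_push {S : Set V} {Φ Φ' : V → V} (h1 : ContDiff ℝ ∞ Φ) (h2 : ContDiff ℝ ∞ Φ')
    (h3 : ∀ z, Φ' (Φ z) = z) (h4 : ∀ z, Φ (Φ' z) = z) (z b : V) :
    IsTan (Φ '' S) (Φ z) b ↔ ∃ a, IsTan S z a ∧ fderiv ℝ Φ z a = b := by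
  constructor
  · intro h
    have h5 := h.image' (S' := S) h2 (by
      rintro y ⟨x, hx, rfl⟩
      rwa [h3])
    rw [h3] at h5
    refine ⟨_, h5, ?_⟩
    have h6 := fderiv_inv h2 h1 h4 (Φ z) b
    rwa [h3] at h6
  · rintro ⟨a, ha, rfl⟩
    exact ha.image' h1 fun y hy => ⟨y, hy, rfl⟩

theorem t_PUSH : S_PUSH := by
  intro m k N Λ Φ Φ' hΛ hΦ hΦ' h3 h4
  have ht := fun z b => tan_push (S := Λ) hΦ.smooth hΦ'.smooth h3 h4 z b
  refine ⟨⟨hΛ.compact.image hΦ.smooth.continuous, hΛ.nonempty.image _, ?_, ?_, ?_⟩,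
    fun z _ b => ht z b⟩
  · rintro _ ⟨z, hz, rfl⟩
    exact hΦ.maps z (hΛ.sub hz)
  · rintro _ ⟨z, hz, rfl⟩
    obtain ⟨F, hF, hF0⟩ := hΛ.mfd z hz
    refine ⟨Φ ∘ F, ⟨hΦ.smooth.comp hF.smooth, ?_, ?_, ?_⟩, by simp [hF0]⟩
    · exact (LeftInverse.injective h3).comp hF.inj
    · intro s v hv
      rw [fderiv_comp s (hΦ.smooth.differentiable (by simp) _)
        (hF.smooth.differentiable (by simp) _)] at hv
      apply hF.imm s v
      have h5 := fderiv_inv hΦ.smooth hΦ'.smooth h3 (F s) (fderiv ℝ F s v)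
      rw [← h5]
      have h6 : fderiv ℝ Φ (F s) (fderiv ℝ F s v) = 0 := hv
      rw [h6, map_zero]
    · intro U hU
      obtain ⟨U', hU', h5⟩ := hF.isOpen U hU
      refine ⟨Φ' ⁻¹' U', hU'.preimage hΦ'.smooth.continuous, ?_⟩
      rw [image_comp, h5]
      ext y
      constructor
      · rintro ⟨x, ⟨hx1, hx2⟩, rfl⟩
        exact ⟨⟨x, hx1, rfl⟩, by simpa [h3] using hx2⟩
      · rintro ⟨⟨x, hx, rfl⟩, hx2⟩
        exact ⟨x, ⟨hx, by simpa [h3] using hx2⟩, rfl⟩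
  · rintro _ ⟨z, hz, rfl⟩ a b ha hb
    obtain ⟨a', ha', rfl⟩ := (ht z a).1 ha
    obtain ⟨b', hb', rfl⟩ := (ht z b).1 hb
    rw [hΦ.form z (hΛ.sub hz) a' b' (ha'.mono hΛ.sub) (hb'.mono hΛ.sub)]
    exact hΛ.iso z hz a' b' ha' hb'

theorem t_PRIM : S_PRIM := by
  intro m k N Λ Φ Φ' η f hΛ h1 h2 h3 h4 hη hrel hf
  refine ⟨fun y => f (Φ' y) + η (Φ' y), ?_⟩
  intro c s hc hcΛ
  have hc' : ContDiffAt ℝ ∞ (fun t => Φ' (c t)) s := h2.contDiffAt.comp s hc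
  have hcΛ' : ∀ᶠ t in 𝓝 s, Φ' (c t) ∈ Λ := by
    filter_upwards [hcΛ] with t ht
    obtain ⟨x, hx, hx'⟩ := ht
    rw [← hx', h3]
    exact hx
  have h5 := hf _ s hc' hcΛ'
  have hcd : HasDerivAt c (deriv c s) s := (hc.differentiableAt (by simp)).hasDerivAt
  have hcd' : HasDerivAt (fun t => Φ' (c t)) (fderiv ℝ Φ' (c s) (deriv c s)) s :=
    ((h2.differentiable (by simp) _).hasFDerivAt).comp_hasDerivAt s hcd
  have h6 : HasDerivAt (fun t => η (Φ' (c t)))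
      (fderiv ℝ η (Φ' (c s)) (fderiv ℝ Φ' (c s) (deriv c s))) s :=
    ((hη.differentiable (by simp) _).hasFDerivAt).comp_hasDerivAt s hcd'
  have h7 := h5.add h6
  have h8 := isTan_of_curve hc' hcΛ'
  have h9 := hrel _ (hΛ.sub h8.mem) _ (h8.mono hΛ.sub)
  rw [hcd'.deriv] at h7 h9
  have h10 := fderiv_inv h2 h1 h4 (c s) (deriv c s)
  rw [h10, h4] at h9
  convert! h7 using 1
  rw [← h9]
  ring

end Pool.Agent.D0H39.NG
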