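import Pool.Agent.D0H39.NG.Stm2
import Pool.Agent.D0H39.NG.Push

set_option autoImplicit false
set_option maxHeartbeats 400000

open Set Filter Topology Metric Function
open scoped ContDiff RealInnerProductSpace NNReal

noncomputable section

namespace Pool.Agent.D0H39.NG

theorem fderiv_fst_flat {m k : ℕ} {N : Set (E m)} {F : E k → E m} {κ : E k × E k → E m × E m}
    (h : IsFlat k N F κ) (w a : E k × E k) : (fderiv ℝ κ w a).1 = fderiv ℝ F w.1 a.1 := by
  have h1 : HasFDerivAt κ (fderiv ℝ κ w) w := (h.smooth.differentiable (by simp) w).hasFDerivAt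
  have h2 := h1.fst
  have h3 : HasFDerivAt (fun w : E k × E k => F w.1)
      ((fderiv ℝ F w.1).comp (ContinuousLinearMap.fst ℝ (E k) (E k))) w :=
    (h.par.smooth.differentiable (by simp) w.1).hasFDerivAt.comp w hasFDerivAt_fst
  have h4 : (fun w => (κ w).1) = fun w => F w.1 := funext h.base
  rw [h4] at h2
  have h5 := DFunLike.congr_fun (h2.unique h3) a
  simpa using h5

theorem t_FTAN : S_FTAN := by
  intro m k N F κ Λ hκ hΛ w hw
  obtain ⟨κ', h1, h2, h3⟩ := hκ.inv w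
  have hd : ∀ a, fderiv ℝ κ' (κ w) (fderiv ℝ κ w a) = a := by
    intro a
    have h4 : HasFDerivAt (fun y => κ' (κ y)) ((fderiv ℝ κ' (κ w)).comp (fderiv ℝ κ w)) w :=
      (h1.differentiable (by simp) _).hasFDerivAt.comp w
        (hκ.smooth.differentiable (by simp) _).hasFDerivAt
    have h5 : HasFDerivAt (fun y => κ' (κ y)) (ContinuousLinearMap.id ℝ (E k × E k)) w :=
      (hasFDerivAt_id w).congr_of_eventuallyEq h2
    have h6 := DFunLike.congr_fun (h4.unique h5) a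
    simpa using h6
  have hback : ∀ b, IsTan Λ (κ w) b →
      IsTan (κ ⁻¹' Λ) w (fderiv ℝ κ' (κ w) b) ∧ fderiv ℝ κ w (fderiv ℝ κ' (κ w) b) = b := by
    intro b hb
    have h7 : κ' (κ w) = w := h2.self_of_nhds
    constructor
    · have h8 := hb.image (S' := κ ⁻¹' Λ) (Φ := κ') h1.contDiffAt (by
        filter_upwards [h3] with y hy hyΛ
        show κ (κ' y) ∈ Λ
        rw [hy (hΛ hyΛ)]
        exact hyΛ)
      rwa [h7] at h8
    · obtain ⟨c, c1, c2, c3, c4⟩ := hb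
      have c5 : HasDerivAt c b 0 := by
        rw [← c4]
        exact (c1.differentiableAt (by simp)).hasDerivAt
      have c6 : HasFDerivAt κ' (fderiv ℝ κ' (κ w)) (c 0) := by
        rw [c3]
        exact (h1.differentiable (by simp) _).hasFDerivAt
      have c7 : HasDerivAt (fun t => κ' (c t)) (fderiv ℝ κ' (κ w) b) 0 := c6.comp_hasDerivAt 0 c5
      have c8 : HasFDerivAt κ (fderiv ℝ κ w) (κ' (c 0)) := by
        rw [c3, h7]
        exact (hκ.smooth.differentiable (by simp) _).hasFDerivAt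
      have c9 : HasDerivAt (fun t => κ (κ' (c t))) (fderiv ℝ κ w (fderiv ℝ κ' (κ w) b)) 0 :=
        c8.comp_hasDerivAt 0 c7
      have c10 : (fun t => κ (κ' (c t))) =ᶠ[𝓝 0] c := by
        have h9 : Tendsto c (𝓝 0) (𝓝 (κ w)) := by
          have := c1.continuousAt.tendsto
          rwa [c3] at this
        filter_upwards [c2, h9.eventually h3] with t t1 t2
        exact t2 (hΛ t1)
      exact c9.unique (c5.congr_of_eventuallyEq c10)
  refine ⟨fun a => ⟨fun ha => ha.image' hκ.smooth fun y hy => hy, fun ha => ?_⟩, fun b hb =>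
    ⟨_, (hback b hb).2⟩⟩
  have h10 := (hback _ ha).1
  rwa [hd] at h10

/-- the exterior derivative of the canonical one-form, pulled back to the plane -/
theorem ext_deriv2 {m : ℕ} {γ : ℝ × ℝ → E m × E m} (hγ : ContDiff ℝ ∞ γ) :
    fderiv ℝ (fun y => ⟪(γ y).2, (fderiv ℝ γ y (1, 0)).1⟫) (0, 0) (0, 1) -
      fderiv ℝ (fun y => ⟪(γ y).2, (fderiv ℝ γ y (0, 1)).1⟫) (0, 0) (1, 0) =
      om (fderiv ℝ γ (0, 0) (0, 1)) (fderiv ℝ γ (0, 0) (1, 0)) := by
  have hd : ∀ y, HasFDerivAt γ (fderiv ℝ γ y) y := fun y =>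
    (hγ.differentiable (by simp) y).hasFDerivAt
  have hγ' : ContDiff ℝ ∞ (fderiv ℝ γ) := hγ.fderiv_right (by simp)
  have hd2 : ∀ (y v : ℝ × ℝ), HasFDerivAt (fun y => fderiv ℝ γ y v)
      ((ContinuousLinearMap.apply ℝ (E m × E m) v).comp (fderiv ℝ (fderiv ℝ γ) y)) y := fun y v =>
    ((ContinuousLinearMap.apply ℝ (E m × E m) v).hasFDerivAt).comp y
      (hγ'.differentiable (by simp) y).hasFDerivAt
  have hsym : fderiv ℝ (fderiv ℝ γ) (0, 0) (0, 1) (1, 0) =
      fderiv ℝ (fderiv ℝ γ) (0, 0) (1, 0) (0, 1) := by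
    have h1 : IsSymmSndFDerivAt ℝ γ (0, 0) :=
      (hγ.contDiffAt (x := ((0, 0) : ℝ × ℝ))).isSymmSndFDerivAt (by
        have h0 : (2 : WithTop ℕ∞) ≤ ∞ := ENat.LEInfty.out
        simpa using h0)
    exact h1.eq _ _
  have key : ∀ v w : ℝ × ℝ, fderiv ℝ (fun y => ⟪(γ y).2, (fderiv ℝ γ y v).1⟫) (0, 0) w =
      ⟪(γ (0, 0)).2, (fderiv ℝ (fderiv ℝ γ) (0, 0) w v).1⟫ +
      ⟪(fderiv ℝ γ (0, 0) w).2, (fderiv ℝ γ (0, 0) v).1⟫ := by
    intro v w
    have h1 := (hd (0, 0)).snd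
    have h2 := (hd2 (0, 0) v).fst
    have h3 := h1.inner ℝ h2
    rw [h3.fderiv]
    simp
  rw [key, key, hsym]
  simp only [om]
  ring

theorem t_FOM : S_FOM := by
  intro m k N F κ hκ w a b
  set δ : ℝ × ℝ → E k × E k := fun y => w + (y.1 • b + y.2 • a) with hδ
  have hδs : ContDiff ℝ ∞ δ := by fun_prop
  have hγs : ContDiff ℝ ∞ (fun y => κ (δ y)) := hκ.smooth.comp hδs
  have hδd : ∀ y v, fderiv ℝ δ y v = v.1 • b + v.2 • a := by
    intro y v
    have h1 : HasFDerivAt δ ((ContinuousLinearMap.fst ℝ ℝ ℝ).smulRight b +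
        (ContinuousLinearMap.snd ℝ ℝ ℝ).smulRight a) y := by
      have h2 : HasFDerivAt (fun y : ℝ × ℝ => y.1 • b + y.2 • a)
          ((ContinuousLinearMap.fst ℝ ℝ ℝ).smulRight b +
            (ContinuousLinearMap.snd ℝ ℝ ℝ).smulRight a) y :=
        ((ContinuousLinearMap.fst ℝ ℝ ℝ).smulRight b +
            (ContinuousLinearMap.snd ℝ ℝ ℝ).smulRight a).hasFDerivAt
      exact h2.const_add w
    rw [h1.fderiv]
    simp
  have hγd : ∀ y v, fderiv ℝ (fun y => κ (δ y)) y v = fderiv ℝ κ (δ y) (fderiv ℝ δ y v) := by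
    intro y v
    have h1 : HasFDerivAt (fun y => κ (δ y)) ((fderiv ℝ κ (δ y)).comp (fderiv ℝ δ y)) y :=
      (hκ.smooth.differentiable (by simp) _).hasFDerivAt.comp y
        (hδs.differentiable (by simp) _).hasFDerivAt
    rw [h1.fderiv]
    rfl
  have h1 := ext_deriv2 hγs
  have h2 := ext_deriv2 hδs
  have h3 : ∀ v : ℝ × ℝ, (fun y => ⟪(κ (δ y)).2, (fderiv ℝ (fun y => κ (δ y)) y v).1⟫) =
      fun y => ⟪(δ y).2, (fderiv ℝ δ y v).1⟫ := by
    intro v
    funext y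
    rw [hγd, fderiv_fst_flat hκ, hκ.lam]
  rw [h3, h3, h2] at h1
  rw [hγd, hγd, hδd, hδd] at h1
  have h4 : δ (0, 0) = w := by simp [hδ]
  simp only [one_smul, zero_smul, zero_add, add_zero, h4] at h1
  exact h1.symm

end Pool.Agent.D0H39.NG
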