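import Pool.Agent.D0H39.NG.Fin
import Pool.Agent.D0H39.NG.Stm3

set_option autoImplicit false
set_option maxHeartbeats 400000

open Set Filter Topology Metric Function
open scoped ContDiff RealInnerProductSpace NNReal

noncomputable section

namespace Pool.Agent.D0H39.NG

variable {m : ℕ}

/-- the quadratic Hamiltonian -/
def quad (B : E m → E m →L[ℝ] E m) (y : E m × E m) : ℝ := 1 / 2 * ⟪B y.1 y.2, y.2⟫

theorem quad_smooth {B : E m → E m →L[ℝ] E m} (hB : ContDiff ℝ ∞ B) : ContDiff ℝ ∞ (quad B) :=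
  contDiff_const.mul (((hB.comp contDiff_fst).clm_apply contDiff_snd).inner ℝ contDiff_snd)

theorem quad_deriv {B : E m → E m →L[ℝ] E m} (hB : ContDiff ℝ ∞ B) (y v : E m × E m) :
    fderiv ℝ (quad B) y v = 1 / 2 * (⟪B y.1 y.2, v.2⟫ +
      ⟪fderiv ℝ B y.1 v.1 y.2 + B y.1 v.2, y.2⟫) := by
  have h1 : HasDerivAt (fun s : ℝ => y + s • v) v 0 := by
    simpa using ((hasDerivAt_id (0 : ℝ)).smul_const v).const_add y
  have h2 : HasDerivAt (fun s : ℝ => quad B (y + s • v)) (fderiv ℝ (quad B) y v) 0 := by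
    have h3 : HasFDerivAt (quad B) (fderiv ℝ (quad B) y) (y + (0 : ℝ) • v) := by
      simpa using ((quad_smooth hB).differentiable (by simp) y).hasFDerivAt
    exact h3.comp_hasDerivAt 0 h1
  have h3 : HasDerivAt (fun s : ℝ => (y + s • v).1) v.1 0 := h1.fst
  have h4 : HasDerivAt (fun s : ℝ => (y + s • v).2) v.2 0 := h1.snd
  have h5 := ((hasDerivAt_apply hB h3 h4).inner ℝ h4).const_mul (1 / 2 : ℝ)
  have h6 := h2.unique h5
  simpa using h6

theorem hasDerivAt_om {x y : ℝ → E m × E m} {x' y' : E m × E m} {s : ℝ} (hx : HasDerivAt x x' s)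
    (hy : HasDerivAt y y' s) :
    HasDerivAt (fun s => om (x s) (y s)) (om x' (y s) + om (x s) y') s := by
  have h1 : HasDerivAt (fun s => (x s).1) x'.1 s := hx.fst
  have h2 : HasDerivAt (fun s => (x s).2) x'.2 s := hx.snd
  have h3 : HasDerivAt (fun s => (y s).1) y'.1 s := hy.fst
  have h4 : HasDerivAt (fun s => (y s).2) y'.2 s := hy.snd
  have h5 := (h2.inner ℝ h3).sub (h4.inner ℝ h1)
  refine h5.congr_deriv ?_
  simp only [om]
  ring

/-- **GP2** -/
theorem t_ZERO : S_ZERO := by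
  intro m k N P B H X φ h hN hP hB hh hH q hq
  have hz : ((q, 0) : E m × E m) ∈ CT N := ⟨hq, isTan_zero hq⟩
  have htan : ∀ a : E m × E m, IsTan (CT N) (q, 0) a ↔ IsTan N q a.1 ∧ IsTan N q a.2 := by
    intro a
    rw [(t_CT m N P hN.compact.isClosed hP).2 _ hz a]
    simp only [map_zero, zero_add]
    rw [hP.tan q hq a.2]
    exact and_congr_right fun _ => eq_comm
  have hd : fderiv ℝ H =ᶠ[𝓝 ((q, 0) : E m × E m)] fderiv ℝ (quad B) :=
    Filter.EventuallyEq.fderiv (hH q hq)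
  -- the field vanishes
  have hX0 : X (q, 0) = 0 := by
    have h1 : ∀ b : E m × E m, IsTan N q b.1 → IsTan N q b.2 → om (X (q, 0)) b = 0 := by
      intro b hb1 hb2
      rw [hh.ham _ hz b ((htan b).2 ⟨hb1, hb2⟩), hd.self_of_nhds, quad_deriv hB.smooth]
      simp
    obtain ⟨h2, h3⟩ := (htan _).1 (hh.tan _ hz)
    have h4 := h1 ((X (q, 0)).2, 0) h3 (isTan_zero hq)
    have h5 := h1 (0, (X (q, 0)).1) (isTan_zero hq) h2
    simp only [om, inner_zero_left, inner_zero_right, sub_zero, zero_sub, neg_eq_zero,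
      inner_self_eq_zero] at h4 h5
    exact Prod.ext h5 h4
  refine ⟨hX0, fun a ha1 ha2 => ?_⟩
  set A := fderiv ℝ X (q, 0) with hA
  have hXd : HasFDerivAt X A (q, 0) := (hh.hX.differentiable (by simp) _).hasFDerivAt
  have haz := (htan a).2 ⟨ha1, ha2⟩
  -- the image of `a` is tangent
  have hAt : P q (A a).1 = (A a).1 ∧ P q (A a).2 = (A a).2 := by
    obtain ⟨c, c1, c2, c3, c4⟩ := haz
    have hc : HasDerivAt c a 0 := by
      rw [← c4]
      exact (c1.differentiableAt (by simp)).hasDerivAt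
    have hXc : HasDerivAt (fun t => X (c t)) (A a) 0 := by
      have : HasFDerivAt X A (c 0) := by rw [c3]; exact hXd
      exact this.comp_hasDerivAt 0 hc
    have hc1 : HasDerivAt (fun t => (c t).1) a.1 0 := hc.fst
    have hc2 : HasDerivAt (fun t => (c t).2) a.2 0 := hc.snd
    have hX1 : HasDerivAt (fun t => (X (c t)).1) (A a).1 0 := hXc.fst
    have hX2 : HasDerivAt (fun t => (X (c t)).2) (A a).2 0 := hXc.snd
    have g1 := hasDerivAt_apply hP.smooth hc1 hX1
    have g2 := hasDerivAt_apply hP.smooth hc1 hX2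
    have hPd : ContDiff ℝ ∞ (fderiv ℝ P) := hP.smooth.fderiv_right (by simp)
    have g3 : HasDerivAt (fun t => fderiv ℝ P (c t).1) (fderiv ℝ (fderiv ℝ P) (c 0).1 a.1) 0 :=
      (hPd.differentiable (by simp) _).hasFDerivAt.comp_hasDerivAt 0 hc1
    have g4 := (g3.clm_apply hX1).clm_apply hc2
    have e : ∀ᶠ t in 𝓝 (0 : ℝ), P (c t).1 (X (c t)).1 = (X (c t)).1 ∧
        fderiv ℝ P (c t).1 (X (c t)).1 (c t).2 + P (c t).1 (X (c t)).2 = (X (c t)).2 := by
      filter_upwards [c2] with t ht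
      obtain ⟨e1, e2⟩ := ((t_CT m N P hN.compact.isClosed hP).2 _ ht _).1 (hh.tan _ ht)
      exact ⟨(hP.tan _ ht.1 _).1 e1, e2.symm⟩
    have e1 : (fun t => P (c t).1 (X (c t)).1) =ᶠ[𝓝 0] fun t => (X (c t)).1 :=
      e.mono fun t ht => ht.1
    have e2 : (fun t => fderiv ℝ P (c t).1 (X (c t)).1 (c t).2 + P (c t).1 (X (c t)).2)
        =ᶠ[𝓝 0] fun t => (X (c t)).2 := e.mono fun t ht => ht.2
    have k1 := (g1.congr_of_eventuallyEq e1.symm).unique hX1
    have k2 := ((g4.add g2).congr_of_eventuallyEq e2.symm).unique hX2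
    simp only [c3, hX0, Prod.fst_zero, Prod.snd_zero, map_zero, zero_add, add_zero,
      ContinuousLinearMap.zero_apply] at k1 k2
    exact ⟨k1, k2⟩
  -- the pairing
  have hpair : ∀ b : E m × E m, IsTan N q b.1 → IsTan N q b.2 →
      om (A a) b = - ⟪B q a.2, b.2⟫ := by
    intro b hb1 hb2
    obtain ⟨γ, γ1, γ2, γ3, γ4, γ5⟩ := t_SURF tan m k N P hN.compact.isClosed hN.mfd hP _ hz a b
      haz ((htan b).2 ⟨hb1, hb2⟩)
    set y : ℝ → E m × E m := fun s => fderiv ℝ γ (s, 0) (0, 1) with hy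
    have hγd : ContDiff ℝ ∞ (fderiv ℝ γ) := γ1.fderiv_right (by simp)
    have hyd : DifferentiableAt ℝ y 0 := by
      have h1 : ContDiff ℝ ∞ y := (hγd.comp (f := fun s : ℝ => ((s, 0) : ℝ × ℝ))
        (by fun_prop)).clm_apply contDiff_const
      exact h1.differentiable (by simp) 0
    have hyd' := hyd.hasDerivAt
    have hy0 : y 0 = b := γ5
    have hx : HasDerivAt (fun s : ℝ => γ (s, 0)) a 0 := by
      have h1 : HasFDerivAt γ (fderiv ℝ γ (0, 0)) (0, 0) :=
        (γ1.differentiable (by simp) _).hasFDerivAt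
      have h2 : HasDerivAt (fun s : ℝ => ((s, 0) : ℝ × ℝ)) (1, 0) 0 :=
        (hasDerivAt_id (0 : ℝ)).prodMk (hasDerivAt_const (0 : ℝ) (0 : ℝ))
      have h3 : HasDerivAt (fun s : ℝ => γ (s, 0)) (fderiv ℝ γ (0, 0) (1, 0)) 0 :=
        HasFDerivAt.comp_hasDerivAt (f := fun s : ℝ => ((s, 0) : ℝ × ℝ)) (0 : ℝ) h1 h2
      rwa [γ4] at h3
    have hxX : HasDerivAt (fun s : ℝ => X (γ (s, 0))) (A a) 0 := by
      have h1 : HasFDerivAt X A (γ (0, 0)) := by rw [γ3]; exact hXd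
      exact h1.comp_hasDerivAt 0 hx
    have hleft := hasDerivAt_om hxX hyd'
    have hyt : ∀ s : ℝ, IsTan (CT N) (γ (s, 0)) (y s) := by
      intro s
      have h1 : HasDerivAt (fun r : ℝ => γ (s, r)) (y s) 0 := by
        have h2 : HasFDerivAt γ (fderiv ℝ γ (s, 0)) (s, 0) :=
          (γ1.differentiable (by simp) _).hasFDerivAt
        have h3 : HasDerivAt (fun r : ℝ => ((s, r) : ℝ × ℝ)) (0, 1) 0 :=
          (hasDerivAt_const (0 : ℝ) s).prodMk (hasDerivAt_id (0 : ℝ))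
        exact h2.comp_hasDerivAt 0 h3
      exact ⟨fun r => γ (s, r), (γ1.comp (f := fun r : ℝ => ((s, r) : ℝ × ℝ))
        (by fun_prop)).contDiffAt, Eventually.of_forall fun r => γ2 _, rfl, h1.deriv⟩
    have hev : (fun s : ℝ => om (X (γ (s, 0))) (y s)) =ᶠ[𝓝 0] fun s : ℝ =>
        - (1 / 2 * (⟪B (γ (s, 0)).1 (γ (s, 0)).2, (y s).2⟫ +
          ⟪fderiv ℝ B (γ (s, 0)).1 (y s).1 (γ (s, 0)).2 + B (γ (s, 0)).1 (y s).2,
            (γ (s, 0)).2⟫)) := by
      have h1 : Tendsto (fun s : ℝ => γ (s, 0)) (𝓝 0) (𝓝 (q, 0)) := by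
        have := hx.continuousAt.tendsto
        rwa [γ3] at this
      filter_upwards [h1.eventually hd] with s hs
      rw [hh.ham _ (γ2 _) _ (hyt s), hs, quad_deriv hB.smooth]
    have hx1 : HasDerivAt (fun s : ℝ => (γ (s, 0)).1) a.1 0 := hx.fst
    have hx2 : HasDerivAt (fun s : ℝ => (γ (s, 0)).2) a.2 0 := hx.snd
    have hy1 : HasDerivAt (fun s : ℝ => (y s).1) (deriv y 0).1 0 := hyd'.fst
    have hy2 : HasDerivAt (fun s : ℝ => (y s).2) (deriv y 0).2 0 := hyd'.snd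
    have hBd : ContDiff ℝ ∞ (fderiv ℝ B) := hB.smooth.fderiv_right (by simp)
    have g3 : HasDerivAt (fun s : ℝ => fderiv ℝ B (γ (s, 0)).1)
        (fderiv ℝ (fderiv ℝ B) (γ (0, 0)).1 a.1) 0 :=
      (hBd.differentiable (by simp) _).hasFDerivAt.comp_hasDerivAt 0 hx1
    have g4 := ((g3.clm_apply hy1).clm_apply hx2).add (hasDerivAt_apply hB.smooth hx1 hy2)
    have g5 := (((hasDerivAt_apply hB.smooth hx1 hx2).inner ℝ hy2).add
      (g4.inner ℝ hx2)).const_mul (1 / 2 : ℝ)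
    have g6 := (hleft.congr_of_eventuallyEq hev.symm).unique g5.neg
    simp only [Pi.add_apply, γ3, hy0, hX0] at g6
    simp [om] at g6
    have hs := hB.symm q b.2 a.2
    rw [real_inner_comm (B q a.2) b.2] at hs
    simp only [om]
    linarith
  have hA2 : (A a).2 = 0 := by
    have h1 := hpair ((A a).2, 0) ((hP.tan q hq _).2 hAt.2) (isTan_zero hq)
    simp only [om, inner_zero_left, inner_zero_right, sub_zero, neg_zero,
      inner_self_eq_zero] at h1
    exact h1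
  have hA1 : (A a).1 = P q (B q a.2) := by
    have h1 : ∀ b, IsTan N q b → ⟪b, (A a).1 - P q (B q a.2)⟫ = 0 := by
      intro b hb
      have h2 := hpair (0, b) (isTan_zero hq) hb
      simp only [om, inner_zero_right, zero_sub, neg_inj] at h2
      have h3 : ⟪b, P q (B q a.2)⟫ = ⟪b, B q a.2⟫ := by
        rw [← hP.symm q hq, (hP.tan q hq b).1 hb]
      rw [inner_sub_right, h3, h2, real_inner_comm]
      ring
    have h4 : P q ((A a).1 - P q (B q a.2)) = (A a).1 - P q (B q a.2) := by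
      rw [map_sub, hAt.1, hP.idem q hq]
    have h5 := h1 _ ((hP.tan q hq _).2 h4)
    rw [inner_self_eq_zero] at h5
    exact sub_eq_zero.1 h5
  exact Prod.ext hA1 hA2

end Pool.Agent.D0H39.NG
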