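import Pool.Agent.D0H39.NG.Free
import Pool.Agent.D0H39.NG.Zero

set_option autoImplicit false
set_option maxHeartbeats 400000

open Set Filter Topology Metric Function
open scoped ContDiff RealInnerProductSpace NNReal

noncomputable section

namespace Pool.Agent.D0H39.NG

variable {m k : ℕ}

theorem gap_image_one (hgrp : S_GRP) (huni : S_UNI) (hham : S_HAMC) {N : Set (E m)}
    (hN : IsClosedMfd k N) {B : E m → E m →L[ℝ] E m} (hB : IsSymmetricField B) {δ : ℝ}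
    (hδ : 0 < δ) : ∃ c : ℝ, 0 < c ∧ ∀ (Λ : Set (E m × E m)) (f : E m × E m → ℝ),
      IsLag k N Λ → IsPrimitive Λ f → (∀ z ∈ Λ, ‖z.2‖ ≤ c) → HasGap N Λ B 1 δ →
      IsImage N Λ := by
  obtain ⟨P, hP⟩ := proj m k N hN.compact hN.mfd
  obtain ⟨H, hH, hHc, hHq⟩ := hham m N B hN.compact hB.smooth
  obtain ⟨X, φ, h, hh⟩ := exists_ham t_CT (D0H84.NG.t_FIELD t_CT) D0H13.NG.t_NAG hN.compact
    hN.mfd hP hH hHc
  have hzero := t_ZERO m k N P B H X φ h hN hP hB hh hHq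
  have hφ1 : ContDiff ℝ ∞ (φ 1) :=
    hh.flow.smooth.comp (f := fun z => ((1 : ℝ), z)) (by fun_prop)
  set g : E m × E m → (E m × E m) →L[ℝ] E m := fun z =>
    (ContinuousLinearMap.fst ℝ (E m) (E m)).comp (fderiv ℝ (φ 1) z) -
      ContinuousLinearMap.fst ℝ (E m) (E m) -
      ((P z.1).comp (B z.1)).comp (ContinuousLinearMap.snd ℝ (E m) (E m)) with hg
  have hgv : ∀ z a, g z a = (fderiv ℝ (φ 1) z a).1 - a.1 - P z.1 (B z.1 a.2) := fun z a => rfl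
  have hgc : Continuous g := by
    have h1 : Continuous (fderiv ℝ (φ 1)) := hφ1.continuous_fderiv (by simp)
    have h2 : Continuous fun z : E m × E m => P z.1 := hP.smooth.continuous.comp continuous_fst
    have h3 : Continuous fun z : E m × E m => B z.1 := hB.smooth.continuous.comp continuous_fst
    exact ((continuous_const.clm_comp h1).sub continuous_const).sub
      ((h2.clm_comp h3).clm_comp continuous_const)
  have hg0 : ∀ q ∈ N, ∀ a : E m × E m, IsTan N q a.1 → IsTan N q a.2 → g (q, 0) a = 0 := by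
    intro q hq a ha1 ha2
    obtain ⟨h1, h2⟩ := hzero q hq
    have h3 := h2 a ha1 ha2
    have h4 : fderiv ℝ X (q, 0) (fderiv ℝ X (q, 0) a) = 0 := by
      rw [h3, h2 (P q (B q a.2), 0) (hP.mem hq _) (isTan_zero hq)]
      simp
    have h5 := hgrp _ X φ hh.hX hh.flow (q, 0) h1 a h4 1
    rw [hgv, h5, h3]
    simp
  obtain ⟨c, hc, hcz⟩ := huni m N P g hN.compact hP hgc hg0 (δ / 2) (half_pos hδ)
  refine ⟨c, hc, fun Λ f hΛ hf hs hgap => ?_⟩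
  refine t_FREE m k N Λ f H X φ h 1 hN hΛ hf hh fun z hz a ha ha0 => ?_
  have h1 := hcz z (hΛ.sub hz) (hs z hz) a (ha.mono hΛ.sub)
  rw [hgv, ha0] at h1
  obtain ⟨b, hb, hb1, hb2⟩ := hgap z hz a ha
  have hq : z.1 ∈ N := (hΛ.sub hz).1
  have h2 : ⟪(1 : ℝ) • a.1 + B z.1 a.2, b⟫ = ⟪a.1 + P z.1 (B z.1 a.2), b⟫ := by
    rw [one_smul, inner_add_left, inner_add_left, hP.symm _ hq, (hP.tan _ hq b).1 hb]
  have h3 : ⟪a.1 + P z.1 (B z.1 a.2), b⟫ ≤ ‖a.1 + P z.1 (B z.1 a.2)‖ * ‖b‖ :=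
    real_inner_le_norm _ _
  have h4 : ‖a.1 + P z.1 (B z.1 a.2)‖ = ‖0 - a.1 - P z.1 (B z.1 a.2)‖ := by
    rw [← norm_neg]
    congr 1
    abel
  have h5 : ‖a.1 + P z.1 (B z.1 a.2)‖ * ‖b‖ ≤ ‖a.1 + P z.1 (B z.1 a.2)‖ :=
    mul_le_of_le_one_right (norm_nonneg _) hb1
  have h6 : ‖a‖ ≤ ‖a.1‖ + ‖a.2‖ := by
    rw [Prod.norm_def]
    exact max_le (by linarith [norm_nonneg a.2]) (by linarith [norm_nonneg a.1])
  have h7 : δ * (‖a.1‖ + ‖a.2‖) ≤ δ / 2 * (‖a.1‖ + ‖a.2‖) := by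
    have h8 : δ / 2 * ‖a‖ ≤ δ / 2 * (‖a.1‖ + ‖a.2‖) :=
      mul_le_mul_of_nonneg_left h6 (half_pos hδ).le
    rw [h2, one_mul] at hb2
    linarith
  have h8 : ‖a.1‖ + ‖a.2‖ ≤ 0 := by
    by_contra h9
    push Not at h9
    nlinarith
  have h9 : a.1 = 0 := norm_le_zero_iff.1 (by linarith [norm_nonneg a.2])
  have h10 : a.2 = 0 := norm_le_zero_iff.1 (by linarith [norm_nonneg a.1])
  exact Prod.ext h9 h10

theorem gap_image (hgrp : S_GRP) (huni : S_UNI) (hham : S_HAMC) (hscl : S_SCL) (hsci : S_SCI)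
    {N : Set (E m)} (hN : IsClosedMfd k N) {B : E m → E m →L[ℝ] E m} (hB : IsSymmetricField B)
    {δ : ℝ} (hδ : 0 < δ) : ∃ c : ℝ, 0 < c ∧ ∀ (Λ : Set (E m × E m)) (f : E m × E m → ℝ) (ρ : ℝ),
      0 < ρ → IsLag k N Λ → IsPrimitive Λ f → (∀ z ∈ Λ, ‖z.2‖ ≤ c * ρ) → HasGap N Λ B ρ δ →
      IsImage N Λ := by
  obtain ⟨c, hc, hcL⟩ := gap_image_one hgrp huni hham hN hB hδ
  refine ⟨c, hc, fun Λ f ρ hρ hΛ hf hs hgap => ?_⟩
  have hr : 0 < ρ⁻¹ := inv_pos.2 hρ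
  obtain ⟨h1, ⟨f', h2⟩, h3⟩ := hscl m k N Λ f ρ⁻¹ hN.mfd hr hΛ hf
  refine hsci m k N Λ ρ⁻¹ hN.mfd hr (hcL _ f' h1 h2 ?_ ?_)
  · rintro _ ⟨z, hz, rfl⟩
    have h4 := hs z hz
    simp only [dil, norm_smul, Real.norm_eq_abs, abs_of_pos hr]
    rw [inv_mul_le_iff₀ hρ, mul_comm]
    exact h4
  · rintro _ ⟨z, hz, rfl⟩ _ hb
    obtain ⟨a, ha, rfl⟩ := h3 z hz _ hb
    obtain ⟨b, hb1, hb2, hb3⟩ := hgap z hz a ha
    refine ⟨b, hb1, hb2, ?_⟩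
    have h4 : ⟪ρ • a.1 + B z.1 a.2, b⟫ = ρ * ⟪(1 : ℝ) • a.1 + B z.1 (ρ⁻¹ • a.2), b⟫ := by
      rw [← real_inner_smul_left, smul_add, one_smul, map_smul, smul_smul,
        mul_inv_cancel₀ hρ.ne', one_smul]
    have h5 : ρ * (δ * (1 * ‖a.1‖ + ‖ρ⁻¹ • a.2‖)) = δ * (ρ * ‖a.1‖ + ‖a.2‖) := by
      rw [norm_smul, Real.norm_eq_abs, abs_of_pos hr]
      field_simp
    rw [h4, ← h5] at hb3
    exact le_of_mul_le_mul_left hb3 hρ

end Pool.Agent.D0H39.NG
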