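import Pool.Agent.D0H39.NG.Bas

set_option autoImplicit false
set_option maxHeartbeats 400000

open Set Filter Topology Metric Function
open scoped ContDiff RealInnerProductSpace NNReal

noncomputable section

namespace Pool.Agent.D0H39.NG

variable {m : ℕ}

/-- the derivative of the primitive along the lift of a curve in `N` -/
theorem lift_deriv {N : Set (E m)} {Λ : Set (E m × E m)} {f : E m × E m → ℝ}
    (hf : IsPrimitive Λ f) {z : E m × E m} {g : E m → E m × E m} (hg : ContDiff ℝ ∞ g)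
    (hg1 : ∀ᶠ q in 𝓝 z.1, q ∈ N → g q ∈ Λ ∧ (g q).1 = q) (hgz : g z.1 = z) {c : ℝ → E m}
    (hc : ContDiffAt ℝ ∞ c 0) (hcN : ∀ᶠ t in 𝓝 (0 : ℝ), c t ∈ N) (hc0 : c 0 = z.1) :
    HasDerivAt (fun t => f (g (c t))) ⟪z.2, deriv c 0⟫ 0 := by
  have h1 : ContDiffAt ℝ ∞ (fun t => g (c t)) 0 := hg.contDiffAt.comp (0 : ℝ) hc
  have h2 : ∀ᶠ t in 𝓝 (0 : ℝ), g (c t) ∈ Λ ∧ (g (c t)).1 = c t := by
    have h3 : Tendsto c (𝓝 0) (𝓝 z.1) := by
      have := hc.continuousAt.tendsto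
      rwa [hc0] at this
    filter_upwards [hcN, h3.eventually hg1] with t ht ht'
    exact ht' ht
  have h4 := hf _ 0 h1 (h2.mono fun _ h => h.1)
  have h5 : (deriv (fun t => g (c t)) 0).1 = deriv c 0 := by
    have h6 : HasDerivAt (fun t => (g (c t)).1) (deriv (fun t => g (c t)) 0).1 0 :=
      ((h1.differentiableAt (by simp)).hasDerivAt).fst
    have h7 : (fun t => (g (c t)).1) =ᶠ[𝓝 0] c := h2.mono fun _ h => h.2
    exact (h7.deriv_eq ▸ h6.deriv).symm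
  rw [h5, hc0, hgz] at h4
  exact h4

theorem t_ONE (hlift : S_LIFT) (hcont : S_CONT) (hlin : S_LIN) : S_ONE := by
  intro m k N Λ f hN hΛ hnv hf
  -- the lifts
  have hl : ∀ z ∈ Λ, ∃ g : E m → E m × E m, ContDiff ℝ ∞ g ∧
      (∀ᶠ q in 𝓝 z.1, q ∈ N → g q ∈ Λ ∧ (g q).1 = q) ∧ g z.1 = z := by
    intro z hz
    obtain ⟨g, h1, h2, h3⟩ := hlift m k N Λ hN hΛ.mfd hΛ.sub z hz (hnv z hz)
    exact ⟨g, h1, h2, h3.self_of_nhds hz⟩
  -- a pair at which the difference is locally extremal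
  have hext : ∀ z ∈ Λ, ∀ w ∈ Λ, z.1 = w.1 →
      ((∀ z' ∈ Λ, ∀ w' ∈ Λ, z'.1 = w'.1 → f z' - f w' ≤ f z - f w)) → z = w := by
    intro z hz w hw hzw hmax
    obtain ⟨g, g1, g2, g3⟩ := hl z hz
    obtain ⟨g', g1', g2', g3'⟩ := hl w hw
    have key : ∀ v, IsTan N z.1 v → ⟪z.2 - w.2, v⟫ = 0 := by
      rintro v ⟨c, c1, c2, c3, c4⟩
      have d1 := lift_deriv hf g1 g2 g3 c1 c2 c3
      have d2 := lift_deriv hf g1' g2' g3' c1 c2 (c3.trans hzw)
      have d3 := d1.sub d2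
      have hloc : IsLocalMax (fun t => f (g (c t)) - f (g' (c t))) 0 := by
        have hct : Tendsto c (𝓝 0) (𝓝 z.1) := by
          have := c1.continuousAt.tendsto
          rwa [c3] at this
        filter_upwards [c2, hct.eventually g2, (hzw ▸ hct).eventually g2'] with t t1 t2 t3
        obtain ⟨t4, t5⟩ := t2 t1
        obtain ⟨t6, t7⟩ := t3 t1
        have h := hmax _ t4 _ t6 (t5.trans t7.symm)
        simp only [c3]
        rw [g3, hzw, g3']
        exact h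
      have h0 := hloc.hasDerivAt_eq_zero d3
      rw [c4] at h0
      rw [inner_sub_left]
      exact h0
    obtain ⟨T, hT⟩ := hlin (E m) k N hN z.1 (hΛ.sub hz).1
    have hz2 : z.2 ∈ T := (hT _).2 (hΛ.sub hz).2
    have hw2 : w.2 ∈ T := (hT _).2 (by rw [hzw]; exact (hΛ.sub hw).2)
    have h1 := key _ ((hT _).1 (T.sub_mem hz2 hw2))
    have h2 : z.2 - w.2 = 0 := inner_self_eq_zero.1 h1
    exact Prod.ext hzw (sub_eq_zero.1 h2)
  -- the maximum
  have hcf := hcont m k Λ f hΛ.mfd hf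
  have hK : IsCompact {y : (E m × E m) × (E m × E m) | y ∈ Λ ×ˢ Λ ∧ y.1.1 = y.2.1} := by
    refine (hΛ.compact.prod hΛ.compact).inter_right (t := {y | y.1.1 = y.2.1}) ?_
    exact isClosed_eq (by fun_prop) (by fun_prop)
  obtain ⟨z₀, hz₀⟩ := hΛ.nonempty
  have hne : {y : (E m × E m) × (E m × E m) | y ∈ Λ ×ˢ Λ ∧ y.1.1 = y.2.1}.Nonempty :=
    ⟨(z₀, z₀), ⟨hz₀, hz₀⟩, rfl⟩
  have hco : ContinuousOn (fun y : (E m × E m) × (E m × E m) => f y.1 - f y.2)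
      {y | y ∈ Λ ×ˢ Λ ∧ y.1.1 = y.2.1} := by
    refine ContinuousOn.sub ?_ ?_
    · exact hcf.comp continuous_fst.continuousOn fun y hy => hy.1.1
    · exact hcf.comp continuous_snd.continuousOn fun y hy => hy.1.2
  obtain ⟨⟨z, w⟩, ⟨⟨hz, hw⟩, hzw⟩, hmax⟩ := hK.exists_isMaxOn hne hco
  have hmax' : ∀ z' ∈ Λ, ∀ w' ∈ Λ, z'.1 = w'.1 → f z' - f w' ≤ f z - f w := fun z' hz' w' hw' h =>
    hmax (show ((z', w') : (E m × E m) × (E m × E m)) ∈ _ from ⟨⟨hz', hw'⟩, h⟩)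
  have hz_eq : z = w := hext z hz w hw hzw hmax'
  have hle : ∀ z' ∈ Λ, ∀ w' ∈ Λ, z'.1 = w'.1 → f z' - f w' ≤ 0 := by
    intro z' hz' w' hw' h
    have := hmax' z' hz' w' hw' h
    rw [hz_eq] at this
    simpa using this
  intro z' hz' w' hw' h
  refine hext z' hz' w' hw' h fun z'' hz'' w'' hw'' h' => ?_
  have h1 := hle z'' hz'' w'' hw'' h'
  have h2 := hle w' hw' z' hz' h.symm
  linarith

end Pool.Agent.D0H39.NG
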