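import Pool.Agent.D0H39.NG.Bas

set_option autoImplicit false
set_option maxHeartbeats 400000

open Set Filter Topology Metric Function
open scoped ContDiff RealInnerProductSpace NNReal

noncomputable section

namespace Pool.Agent.D0H39.NG

theorem t_SEC (hlift : S_LIFT) (hextn : S_EXT) : S_SEC := by
  intro m k N Λ hN hΛ hnv hinj
  have hl : ∀ z ∈ Λ, ∃ (g : E m → E m × E m) (U : Set (E m)), ContDiff ℝ ∞ g ∧ IsOpen U ∧
      z.1 ∈ U ∧ ∀ q ∈ U, q ∈ N → g q ∈ Λ ∧ (g q).1 = q := by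
    intro z hz
    obtain ⟨g, h1, h2, h3⟩ := hlift m k N Λ hN.mfd hΛ.mfd hΛ.sub z hz (hnv z hz)
    obtain ⟨U, hU1, hU2, hU3⟩ := _root_.eventually_nhds_iff.1 h2
    exact ⟨g, U, h1, hU2, hU3, hU1⟩
  have hsurj : ∀ q ∈ N, ∃ p, (q, p) ∈ Λ := by
    by_contra hcon
    push Not at hcon
    obtain ⟨q₀, hq₀, hq₀'⟩ := hcon
    have hcl : IsClosed (Prod.fst '' Λ) := (hΛ.compact.image continuous_fst).isClosed
    choose! g U hg hU hzU hgU using hl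
    have hUo : IsOpen (⋃ z ∈ Λ, U z) := isOpen_biUnion fun z hz => hU z hz
    obtain ⟨z₀, hz₀⟩ := hΛ.nonempty
    have h1 : N ⊆ (⋃ z ∈ Λ, U z) ∪ (Prod.fst '' Λ)ᶜ := by
      intro q hq
      by_cases h : q ∈ Prod.fst '' Λ
      · obtain ⟨z, hz, rfl⟩ := h
        exact Or.inl (mem_biUnion hz (hzU z hz))
      · exact Or.inr h
    have h2 : (N ∩ ⋃ z ∈ Λ, U z).Nonempty :=
      ⟨z₀.1, (hΛ.sub hz₀).1, mem_biUnion hz₀ (hzU z₀ hz₀)⟩
    have h3 : (N ∩ (Prod.fst '' Λ)ᶜ).Nonempty := by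
      refine ⟨q₀, hq₀, ?_⟩
      rintro ⟨z, hz, hz'⟩
      apply hq₀' z.2
      rw [← hz']
      exact hz
    obtain ⟨q, hqN, hq1, hq2⟩ := hN.connected.isPreconnected _ _ hUo hcl.isOpen_compl h1 h2 h3
    obtain ⟨z, hz, hzq⟩ := mem_iUnion₂.1 hq1
    obtain ⟨h4, h5⟩ := hgU z hz q hzq hqN
    exact hq2 ⟨_, h4, h5⟩
  choose! σ hσ using hsurj
  obtain ⟨s, hs1, hs2⟩ := hextn (E m) (E m) N σ hN.compact.isClosed (by
    intro q hq
    obtain ⟨g, U, g1, U1, U2, g2⟩ := hl (q, σ q) (hσ q hq)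
    refine ⟨fun y => (g y).2, U, U1, U2, (contDiff_snd.comp g1).contDiffOn, ?_⟩
    intro y hyU hyN
    obtain ⟨h1, h2⟩ := g2 y hyU hyN
    have h3 := hinj _ h1 _ (hσ y hyN) (by rw [h2])
    exact congrArg Prod.snd h3)
  refine ⟨s, hs1, ?_⟩
  ext z
  constructor
  · intro hz
    have hzN := (hΛ.sub hz).1
    refine ⟨z.1, hzN, ?_⟩
    have h1 := hinj _ (hσ z.1 hzN) _ hz rfl
    change (z.1, s z.1) = z
    rw [hs2 _ hzN]
    exact h1
  · rintro ⟨q, hq, rfl⟩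
    change (q, s q) ∈ Λ
    rw [hs2 q hq]
    exact hσ q hq

end Pool.Agent.D0H39.NG
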