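import Pool.Agent.D0H39.NG.Bas

set_option autoImplicit false
set_option maxHeartbeats 400000

open Set Filter Topology Metric Function
open scoped ContDiff RealInnerProductSpace NNReal

noncomputable section

namespace Pool.Agent.D0H39.NG

variable {m : ℕ}

theorem hasFDerivAt_shift {s : E m → E m} (hs : ContDiff ℝ ∞ s) (ε : ℝ) (z a : E m × E m) :
    fderiv ℝ (fun z : E m × E m => (z.1, z.2 + ε • s z.1)) z a =
      (a.1, a.2 + ε • fderiv ℝ s z.1 a.1) := by
  have h1 : HasFDerivAt (fun z : E m × E m => s z.1)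
      ((fderiv ℝ s z.1).comp (ContinuousLinearMap.fst ℝ (E m) (E m))) z :=
    (hs.differentiable (by simp) z.1).hasFDerivAt.comp z hasFDerivAt_fst
  have h2 : HasFDerivAt (fun z : E m × E m => z.2) (ContinuousLinearMap.snd ℝ (E m) (E m)) z :=
    hasFDerivAt_snd
  have h3 : HasFDerivAt (fun z : E m × E m => z.1) (ContinuousLinearMap.fst ℝ (E m) (E m)) z :=
    hasFDerivAt_fst
  have h4 := h3.prodMk (h2.add (h1.const_smul ε))
  have h5 : fderiv ℝ (fun z : E m × E m => (z.1, z.2 + ε • s z.1)) z = _ := h4.fderiv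
  rw [h5]
  simp

theorem t_TRA (hlin : S_LIN) : S_TRA := by
  intro m k N Λ s hN hΛ hs hΛs
  have hsq : ∀ q ∈ N, IsTan N q (s q) := by
    intro q hq
    have : (q, s q) ∈ Λ := by rw [hΛs]; exact ⟨q, hq, rfl⟩
    exact (hΛ.sub this).2
  have hadd : ∀ q ∈ N, ∀ v w, IsTan N q v → IsTan N q w → ∀ ε : ℝ, IsTan N q (v + ε • w) := by
    intro q hq v w hv hw ε
    obtain ⟨T, hT⟩ := hlin (E m) k N hN.mfd q hq
    exact (hT _).1 (T.add_mem ((hT v).2 hv) (T.smul_mem ε ((hT w).2 hw)))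
  have hsymp : ∀ ε : ℝ, IsSymp N (fun z : E m × E m => (z.1, z.2 + ε • s z.1)) := by
    intro ε
    refine ⟨by fun_prop, ?_, ?_⟩
    · rintro z ⟨hz1, hz2⟩
      exact ⟨hz1, hadd z.1 hz1 _ _ hz2 (hsq z.1 hz1) ε⟩
    · intro z hz a b ha hb
      rw [hasFDerivAt_shift hs, hasFDerivAt_shift hs]
      have hgr : ∀ v, IsTan N z.1 v → IsTan Λ (z.1, s z.1) (v, fderiv ℝ s z.1 v) := by
        intro v hv
        have h1 := hv.image' (S' := Λ) (Φ := fun q => (q, s q)) (by fun_prop) (by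
          intro q hq
          rw [hΛs]
          exact ⟨q, hq, rfl⟩)
        have h2 : HasFDerivAt (fun q : E m => (q, s q))
            ((ContinuousLinearMap.id ℝ (E m)).prod (fderiv ℝ s z.1)) z.1 :=
          (hasFDerivAt_id z.1).prodMk (hs.differentiable (by simp) z.1).hasFDerivAt
        rw [h2.fderiv] at h1
        simpa using h1
      have h3 : (z.1, s z.1) ∈ Λ := by rw [hΛs]; exact ⟨z.1, hz.1, rfl⟩
      have h4 := hΛ.iso _ h3 _ _ (hgr _ (CT.fst ha)) (hgr _ (CT.fst hb))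
      simp only [om, inner_add_left, inner_smul_left] at h4 ⊢
      simp only [conj_trivial]
      linear_combination ε * h4
  refine ⟨_, _, hsymp 1, hsymp (-1), ?_, ?_⟩
  · intro z hz
    constructor <;> simp
  · rw [hΛs]
    ext z
    constructor
    · rintro ⟨w, ⟨hw1, hw2⟩, rfl⟩
      exact ⟨w.1, hw1, by simp [hw2]⟩
    · rintro ⟨q, hq, rfl⟩
      exact ⟨(q, 0), ⟨hq, rfl⟩, by simp⟩

end Pool.Agent.D0H39.NG
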