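import Pool.Agent.D0H39.NG.Ct
import Pool.Agent.D0H39.NG.Push
import Pool.Agent.D0H39.NG.Tra
import Pool.Agent.D0H39.NG.Flow
import Pool.Agent.D0H39.NG.One
import Pool.Agent.D0H39.NG.Sec

set_option autoImplicit false
set_option maxHeartbeats 400000

open Set Filter Topology Metric Function
open scoped ContDiff RealInnerProductSpace NNReal

noncomputable section

namespace Pool.Agent.D0H39.NG

variable {m : ℕ}

theorem exists_ham (hct : S_CT) (hfield : S_FIELD) (hnag : S_NAG) {k : ℕ} {N : Set (E m)}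
    {P : E m → E m →L[ℝ] E m} {H : E m × E m → ℝ} (hNc : IsCompact N) (hN : IsMfd k N)
    (hP : IsProjField N P) (hH : ContDiff ℝ ∞ H) (hHc : HasCompactSupport H) :
    ∃ X φ h, IsHam N H X φ h := by
  obtain ⟨X, h1, h2, h3⟩ := hfield m k N P H hNc hN hP hH hHc
  obtain ⟨φ, hφ⟩ := t_FLOW _ X h1 h2
  have hg : ContDiff ℝ ∞ (fun z : E m × E m => ⟪z.2, (X z).1⟫ - H z) :=
    (contDiff_snd.inner ℝ (contDiff_fst.comp h1)).sub hH
  have hgc : HasCompactSupport (fun z : E m × E m => ⟪z.2, (X z).1⟫ - H z) := by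
    have h4 : HasCompactSupport (fun z : E m × E m => ⟪z.2, (X z).1⟫) := by
      refine h2.mono fun z hz => ?_
      intro h5
      apply hz
      simp [h5]
    exact h4.sub hHc
  obtain ⟨h, hh1, hh2, hh3⟩ := t_INT _ X φ _ h1 h2 hφ hg hgc
  exact ⟨X, φ, h, hH, h1, fun z hz => (h3 z hz).1, fun z hz => (h3 z hz).2, hφ,
    hnag _ (CT N) X φ (hct m N P hNc.isClosed hP).1 h1 h2 hφ fun z hz => (h3 z hz).1,
    hh1, hh2, hh3⟩

theorem symp_flow (hlam : S_LAM) (hom : S_OM) {k : ℕ} {N : Set (E m)}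
    {P : E m → E m →L[ℝ] E m} {H : E m × E m → ℝ} (hNc : IsClosed N) (hN : IsMfd k N)
    (hP : IsProjField N P) {X : E m × E m → E m × E m} {φ : ℝ → E m × E m → E m × E m}
    {h : ℝ → E m × E m → ℝ} (hh : IsHam N H X φ h) (t : ℝ) : IsSymp N (φ t) := by
  have h1 : ContDiff ℝ ∞ (φ t) :=
    hh.flow.smooth.comp (f := fun z => (t, z)) (by fun_prop)
  have h2 : ContDiff ℝ ∞ (h t) := hh.hh.comp (f := fun z => (t, z)) (by fun_prop)
  exact ⟨h1, hh.inv t, hom m k N P (φ t) (h t) hNc hN hP h1 h2 (hlam m N H X φ h hh t)⟩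

theorem IsImage.pull {N : Set (E m)} {Λ : Set (E m × E m)} {Φ Φ' : E m × E m → E m × E m}
    (h : IsImage N (Φ '' Λ)) (h1 : IsSymp N Φ) (h2 : IsSymp N Φ') (h3 : ∀ z, Φ' (Φ z) = z)
    (h4 : ∀ z, Φ (Φ' z) = z) : IsImage N Λ := by
  obtain ⟨ψ, ψ', g1, g2, g3, g4⟩ := h
  refine ⟨Φ' ∘ ψ, ψ' ∘ Φ, g1.comp h2, h1.comp g2, fun z hz => ⟨?_, ?_⟩, ?_⟩
  · simp only [comp_apply]
    rw [h4]
    exact (g3 z hz).1
  · simp only [comp_apply]
    rw [(g3 _ (h1.maps z hz)).2, h3]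
  · rw [image_comp, g4, ← image_comp]
    have : Φ' ∘ Φ = id := funext h3
    rw [this, image_id]

theorem twisting_image (hct : S_CT) (hproj : S_PROJ) (hfield : S_FIELD) (hnag : S_NAG)
    (hlam : S_LAM) (hom : S_OM) (hnov : S_NOV) (hlift : S_LIFT) (hcont : S_CONT) (hlin : S_LIN)
    (hextn : S_EXT) (hcut : S_CUT) {k : ℕ} {N : Set (E m)} (hN : IsClosedMfd k N)
    {Λ : Set (E m × E m)} (hΛ : IsLag k N Λ) {f : E m × E m → ℝ} (hf : IsPrimitive Λ f)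
    {K : E m × E m → ℝ} (hK : IsTwisting N Λ K) : IsImage N Λ := by
  obtain ⟨H, hHc, hH⟩ := hcut m k N Λ K hΛ hK
  obtain ⟨P, hP⟩ := hproj m k N hN.compact hN.mfd
  obtain ⟨X, φ, h, hh⟩ := exists_ham hct hfield hnag hN.compact hN.mfd hP hH.smooth hHc
  obtain ⟨t, ht⟩ := hnov m k N P Λ H X φ h hN.compact.isClosed hP hΛ hh hH
  have hs := symp_flow hlam hom hN.compact.isClosed hN.mfd hP hh
  have h3 : ∀ z, φ (-t) (φ t z) = z := fun z => by rw [← hh.flow.add]; simp [hh.flow.zero]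
  have h4 : ∀ z, φ t (φ (-t) z) = z := fun z => by rw [← hh.flow.add]; simp [hh.flow.zero]
  obtain ⟨hΛ', htan⟩ := t_PUSH m k N Λ (φ t) (φ (-t)) hΛ (hs t) (hs (-t)) h3 h4
  obtain ⟨f', hf'⟩ := t_PRIM m k N Λ (φ t) (φ (-t)) (h t) f hΛ (hs t).smooth (hs (-t)).smooth h3 h4
    (hh.hh.comp (f := fun z => (t, z)) (by fun_prop)) (hlam m N H X φ h hh t) hf
  have hnv : ∀ z ∈ φ t '' Λ, ¬ IsVertical (φ t '' Λ) z := by
    rintro _ ⟨z, hz, rfl⟩ ⟨b, hb, hb'⟩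
    obtain ⟨a, ha, hab⟩ := (htan z hz _).1 hb'
    have h5 := ht z hz a ha (by rw [hab])
    rw [h5, map_zero] at hab
    exact hb (congrArg Prod.snd hab).symm
  have hone := t_ONE hlift hcont hlin m k N _ f' hN.mfd hΛ' hnv hf'
  obtain ⟨s, hs1, hs2⟩ := t_SEC hlift hextn m k N _ hN hΛ' hnv hone
  exact (t_TRA hlin m k N _ s hN hΛ' hs1 hs2).pull (hs t) (hs (-t)) h3 h4

end Pool.Agent.D0H39.NG
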