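import Mathlib

/-!
# Exact Lagrangian submanifolds of cotangent bundles without folds: statements

The closed manifold `N` is a submanifold of `ℝ^m`, and its cotangent bundle is identified with its
tangent bundle `CT N ⊆ ℝ^m × ℝ^m` by the induced Riemannian metric.  The canonical one-form is then
`⟪p, dq⟫`, the symplectic form is `dp ∧ dq`.
-/

set_option autoImplicit false

open Set Filter Topology Metric Function
open scoped ContDiff RealInnerProductSpace NNReal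

noncomputable section

namespace Pool.Agent.D0H39.NG

abbrev E (m : ℕ) := EuclideanSpace ℝ (Fin m)

section General

variable {V : Type} [NormedAddCommGroup V] [NormedSpace ℝ V]

/-- `F` is a parametrization of a piece of the `k`-dimensional submanifold `S`: an injective smooth
immersion of `ℝ^k`, open as a map to `S` -/
structure IsPar (k : ℕ) (S : Set V) (F : E k → V) : Prop where
  smooth : ContDiff ℝ ∞ F
  inj : Injective F
  imm : ∀ s v, fderiv ℝ F s v = 0 → v = 0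
  isOpen : ∀ U : Set (E k), IsOpen U → ∃ U', IsOpen U' ∧ F '' U = S ∩ U'

/-- `S` is a `k`-dimensional smooth submanifold without boundary -/
def IsMfd (k : ℕ) (S : Set V) : Prop := ∀ z ∈ S, ∃ F : E k → V, IsPar k S F ∧ F 0 = z

/-- `a` is a tangent vector of `S` at `z`: the velocity of a smooth curve in `S` -/
def IsTan (S : Set V) (z a : V) : Prop :=
  ∃ c : ℝ → V, ContDiffAt ℝ ∞ c 0 ∧ (∀ᶠ t in 𝓝 (0 : ℝ), c t ∈ S) ∧ c 0 = z ∧ deriv c 0 = a

/-- `φ` is the flow of `X` -/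
structure IsFlow (X : V → V) (φ : ℝ → V → V) : Prop where
  smooth : ContDiff ℝ ∞ (fun y : ℝ × V => φ y.1 y.2)
  zero : ∀ z, φ 0 z = z
  add : ∀ s t z, φ (s + t) z = φ s (φ t z)
  deriv : ∀ z t, HasDerivAt (fun t => φ t z) (X (φ t z)) t

end General

variable {m : ℕ}

/-- the symplectic form `dp ∧ dq` of `ℝ^m × ℝ^m`; points and vectors are pairs `(q, p)` -/
def om (a b : E m × E m) : ℝ := ⟪a.2, b.1⟫ - ⟪b.2, a.1⟫

/-- `N` is a closed connected manifold of dimension `k`, embedded in `ℝ^m` -/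
structure IsClosedMfd (k : ℕ) (N : Set (E m)) : Prop where
  compact : IsCompact N
  connected : IsConnected N
  mfd : IsMfd k N

/-- the (co)tangent bundle of `N ⊆ ℝ^m`: the pairs `(q, p)` with `q ∈ N` and `p` tangent to `N` -/
def CT (N : Set (E m)) : Set (E m × E m) := {z | z.1 ∈ N ∧ IsTan N z.1 z.2}

/-- `Λ` is a closed Lagrangian submanifold of the cotangent bundle of the `k`-dimensional `N` -/
structure IsLag (k : ℕ) (N : Set (E m)) (Λ : Set (E m × E m)) : Prop where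
  compact : IsCompact Λ
  nonempty : Λ.Nonempty
  sub : Λ ⊆ CT N
  mfd : IsMfd k Λ
  iso : ∀ z ∈ Λ, ∀ a b, IsTan Λ z a → IsTan Λ z b → om a b = 0

/-- `f` is a primitive of the canonical one-form `p dq` on `Λ` -/
def IsPrimitive (Λ : Set (E m × E m)) (f : E m × E m → ℝ) : Prop :=
  ∀ (c : ℝ → E m × E m) (s : ℝ), ContDiffAt ℝ ∞ c s → (∀ᶠ t in 𝓝 s, c t ∈ Λ) →
    HasDerivAt (fun t => f (c t)) ⟪(c s).2, (deriv c s).1⟫ s

/-- `Λ` has a vertical tangent vector at `z` -/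
def IsVertical (Λ : Set (E m × E m)) (z : E m × E m) : Prop :=
  ∃ a : E m, a ≠ 0 ∧ IsTan Λ z (0, a)

/-- `B` is a smooth field of symmetric matrices -/
structure IsSymmetricField (B : E m → E m →L[ℝ] E m) : Prop where
  smooth : ContDiff ℝ ∞ B
  symm : ∀ q v w, ⟪B q v, w⟫ = ⟪v, B q w⟫

/-- The vertical tangencies of `Λ` have signs with respect to `B`: there is a locally constant
function `σ = ±1` on the set of the vertical tangencies such that near every vertical tangency `z`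
the tangent vectors `a` of `Λ` satisfy `σ(z) ⟪B dq(a), dp(a)⟫ ≥ -C ‖dq(a)‖²`, and the quadratic form
`B` is nondegenerate on the vertical tangent vectors in the sense that none of them is orthogonal
for `B` to all the tangent vectors of `N`. -/
def HasSigns (N : Set (E m)) (Λ : Set (E m × E m)) (B : E m → E m →L[ℝ] E m) : Prop :=
  ∃ σ : E m × E m → ℝ, (∀ z, σ z = 1 ∨ σ z = -1) ∧
    ∀ z ∈ Λ, IsVertical Λ z → ∃ C r : ℝ, 0 < r ∧
      (∀ w ∈ Λ, ‖w - z‖ < r → (IsVertical Λ w → σ w = σ z) ∧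
        ∀ a, IsTan Λ w a → -C * ‖a.1‖ ^ 2 ≤ σ z * ⟪B w.1 a.1, a.2⟫) ∧
      ∀ a, IsTan Λ z (0, a) → (∀ b, IsTan N z.1 b → ⟪B z.1 a, b⟫ = 0) → a = 0

/-- the second derivative of `K` at `w` in the directions `(0, u)` and `(0, v)` of the fibre -/
def Hp (K : E m × E m → ℝ) (w : E m × E m) (u v : E m) : ℝ :=
  fderiv ℝ (fun y => fderiv ℝ K y ((0 : E m), u)) w ((0 : E m), v)

/-- The function `K` twists `Λ`: near every vertical tangency the tangent vectors `a` of `Λ` satisfy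
`K_pp(dq(a), dp(a)) ≥ -C ‖dq(a)‖²`, and `K_pp` is nondegenerate on the vertical tangent vectors. -/
structure IsTwisting (N : Set (E m)) (Λ : Set (E m × E m)) (K : E m × E m → ℝ) : Prop where
  smooth : ContDiff ℝ ∞ K
  cond : ∀ z ∈ Λ, IsVertical Λ z → ∃ C r : ℝ, 0 < r ∧
    (∀ w ∈ Λ, ‖w - z‖ < r → ∀ a, IsTan Λ w a → -C * ‖a.1‖ ^ 2 ≤ Hp K w a.1 a.2) ∧
    ∀ a, IsTan Λ z (0, a) → (∀ b, IsTan N z.1 b → Hp K z a b = 0) → a = 0

/-- `ψ` is a smooth map of the cotangent bundle of `N` to itself that preserves the symplectic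
form -/
structure IsSymp (N : Set (E m)) (ψ : E m × E m → E m × E m) : Prop where
  smooth : ContDiff ℝ ∞ ψ
  maps : ∀ z ∈ CT N, ψ z ∈ CT N
  form : ∀ z ∈ CT N, ∀ a b, IsTan (CT N) z a → IsTan (CT N) z b →
    om (fderiv ℝ ψ z a) (fderiv ℝ ψ z b) = om a b

/-- `Λ` is the image of the zero section under a symplectic diffeomorphism `ψ` of the cotangent
bundle of `N` (with the inverse `ψ'`) -/
def IsImage (N : Set (E m)) (Λ : Set (E m × E m)) : Prop :=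
  ∃ ψ ψ' : E m × E m → E m × E m, IsSymp N ψ ∧ IsSymp N ψ' ∧
    (∀ z ∈ CT N, ψ' (ψ z) = z ∧ ψ (ψ' z) = z) ∧ ψ '' {z | z.1 ∈ N ∧ z.2 = 0} = Λ

/-! ## Auxiliary notions -/

/-- a smooth field of matrices, which on `N` are the orthogonal projections to the tangent
spaces -/
structure IsProjField (N : Set (E m)) (P : E m → E m →L[ℝ] E m) : Prop where
  smooth : ContDiff ℝ ∞ P
  tan : ∀ q ∈ N, ∀ v, IsTan N q v ↔ P q v = v
  idem : ∀ q ∈ N, ∀ v, P q (P q v) = P q v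
  symm : ∀ q ∈ N, ∀ v w, ⟪P q v, w⟫ = ⟪v, P q w⟫

/-- `φ` is the flow of the Hamiltonian vector field `X` of `H` on the cotangent bundle of `N`, and
`h` is its action -/
structure IsHam (N : Set (E m)) (H : E m × E m → ℝ) (X : E m × E m → E m × E m)
    (φ : ℝ → E m × E m → E m × E m) (h : ℝ → E m × E m → ℝ) : Prop where
  hH : ContDiff ℝ ∞ H
  hX : ContDiff ℝ ∞ X
  tan : ∀ z ∈ CT N, IsTan (CT N) z (X z)
  ham : ∀ z ∈ CT N, ∀ a, IsTan (CT N) z a → om (X z) a = - fderiv ℝ H z a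
  flow : IsFlow X φ
  inv : ∀ t, ∀ z ∈ CT N, φ t z ∈ CT N
  hh : ContDiff ℝ ∞ (fun y : ℝ × (E m × E m) => h y.1 y.2)
  h0 : ∀ z, h 0 z = 0
  hd : ∀ z t, HasDerivAt (fun t => h t z) (⟪(φ t z).2, (X (φ t z)).1⟫ - H (φ t z)) t

/-! ## The modules -/

/-- **NG1** extension of smooth functions from closed sets -/
def S_EXT : Prop := ∀ (V W : Type) [NormedAddCommGroup V] [NormedSpace ℝ V]
  [FiniteDimensional ℝ V] [NormedAddCommGroup W] [NormedSpace ℝ W] (S : Set V) (g : V → W),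
  IsClosed S → (∀ q ∈ S, ∃ (h : V → W) (U : Set V), IsOpen U ∧ q ∈ U ∧ ContDiffOn ℝ ∞ h U ∧
    ∀ y ∈ U, y ∈ S → h y = g y) →
  ∃ h : V → W, ContDiff ℝ ∞ h ∧ ∀ y ∈ S, h y = g y

/-- **NG2** left inverses of parametrizations -/
def S_INV : Prop := ∀ (V : Type) [NormedAddCommGroup V] [NormedSpace ℝ V]
  [FiniteDimensional ℝ V] (k : ℕ) (S : Set V) (F : E k → V), IsPar k S F → ∀ s₀ : E k,
  ∃ θ : V → E k, ContDiff ℝ ∞ θ ∧ (∀ᶠ s in 𝓝 s₀, θ (F s) = s) ∧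
    ∀ᶠ y in 𝓝 (F s₀), y ∈ S → F (θ y) = y

/-- **NG3a** tangent vectors in a parametrization -/
def S_TAN : Prop := ∀ (V : Type) [NormedAddCommGroup V] [NormedSpace ℝ V]
  [FiniteDimensional ℝ V] (k : ℕ) (S : Set V) (F : E k → V), IsPar k S F → ∀ (s : E k) (a : V),
  IsTan S (F s) a ↔ ∃ v, fderiv ℝ F s v = a

/-- **NG3b** the tangent spaces are linear -/
def S_LIN : Prop := ∀ (V : Type) [NormedAddCommGroup V] [NormedSpace ℝ V]
  [FiniteDimensional ℝ V] (k : ℕ) (S : Set V), IsMfd k S → ∀ z ∈ S,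
  ∃ T : Submodule ℝ V, ∀ a, a ∈ T ↔ IsTan S z a

/-- **NG3c** limits of tangent vectors are tangent vectors -/
def S_TCL : Prop := ∀ (V : Type) [NormedAddCommGroup V] [NormedSpace ℝ V]
  [FiniteDimensional ℝ V] (k : ℕ) (S : Set V), IsMfd k S → ∀ (u b : ℕ → V) (z a : V),
  (∀ j, u j ∈ S) → z ∈ S → (∀ j, IsTan S (u j) (b j)) → Tendsto u atTop (𝓝 z) →
  Tendsto b atTop (𝓝 a) → IsTan S z a

/-- **NG4** the projections to the tangent spaces -/
def S_PROJ : Prop := ∀ (m k : ℕ) (N : Set (E m)), IsCompact N → IsMfd k N →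
  ∃ P : E m → E m →L[ℝ] E m, IsProjField N P

/-- **NG5** the tangent vectors of the cotangent bundle -/
def S_CT : Prop := ∀ (m : ℕ) (N : Set (E m)) (P : E m → E m →L[ℝ] E m), IsClosed N →
  IsProjField N P → IsClosed (CT N) ∧ ∀ z ∈ CT N, ∀ a, IsTan (CT N) z a ↔
    IsTan N z.1 a.1 ∧ a.2 = fderiv ℝ P z.1 a.1 z.2 + P z.1 a.2

/-- **NG6** surfaces in the cotangent bundle -/
def S_SURF : Prop := ∀ (m k : ℕ) (N : Set (E m)) (P : E m → E m →L[ℝ] E m), IsClosed N →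
  IsMfd k N → IsProjField N P → ∀ z ∈ CT N, ∀ a b, IsTan (CT N) z a → IsTan (CT N) z b →
  ∃ γ : ℝ × ℝ → E m × E m, ContDiff ℝ ∞ γ ∧ (∀ y, γ y ∈ CT N) ∧ γ (0, 0) = z ∧
    fderiv ℝ γ (0, 0) (1, 0) = a ∧ fderiv ℝ γ (0, 0) (0, 1) = b

/-- **NG7** the Hamiltonian vector field -/
def S_FIELD : Prop := ∀ (m k : ℕ) (N : Set (E m)) (P : E m → E m →L[ℝ] E m)
  (H : E m × E m → ℝ), IsCompact N → IsMfd k N → IsProjField N P → ContDiff ℝ ∞ H →
  HasCompactSupport H → ∃ X : E m × E m → E m × E m, ContDiff ℝ ∞ X ∧ HasCompactSupport X ∧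
    ∀ z ∈ CT N, IsTan (CT N) z (X z) ∧
      ∀ a, IsTan (CT N) z a → om (X z) a = - fderiv ℝ H z a

/-- **NG8a** flows -/
def S_FLOW : Prop := ∀ (V : Type) [NormedAddCommGroup V] [NormedSpace ℝ V]
  [FiniteDimensional ℝ V] (X : V → V), ContDiff ℝ ∞ X → HasCompactSupport X →
  ∃ φ : ℝ → V → V, IsFlow X φ

/-- **NG8b** integrals along a flow -/
def S_INT : Prop := ∀ (V : Type) [NormedAddCommGroup V] [NormedSpace ℝ V]
  [FiniteDimensional ℝ V] (X : V → V) (φ : ℝ → V → V) (g : V → ℝ), ContDiff ℝ ∞ X →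
  HasCompactSupport X → IsFlow X φ → ContDiff ℝ ∞ g → HasCompactSupport g →
  ∃ h : ℝ → V → ℝ, ContDiff ℝ ∞ (fun y : ℝ × V => h y.1 y.2) ∧ (∀ z, h 0 z = 0) ∧
    ∀ z t, HasDerivAt (fun t => h t z) (g (φ t z)) t

/-- **NG9** vector fields which are tangent to a closed set preserve it -/
def S_NAG : Prop := ∀ (V : Type) [NormedAddCommGroup V] [NormedSpace ℝ V]
  [FiniteDimensional ℝ V] (S : Set V) (X : V → V) (φ : ℝ → V → V), IsClosed S →
  ContDiff ℝ ∞ X → HasCompactSupport X → IsFlow X φ → (∀ z ∈ S, IsTan S z (X z)) →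
  ∀ t, ∀ z ∈ S, φ t z ∈ S

/-- **NG10** the flow and the canonical one-form -/
def S_LAM : Prop := ∀ (m : ℕ) (N : Set (E m)) (H : E m × E m → ℝ) (X : E m × E m → E m × E m)
  (φ : ℝ → E m × E m → E m × E m) (h : ℝ → E m × E m → ℝ), IsHam N H X φ h →
  ∀ t, ∀ z ∈ CT N, ∀ a, IsTan (CT N) z a →
    ⟪(φ t z).2, (fderiv ℝ (φ t) z a).1⟫ - ⟪z.2, a.1⟫ = fderiv ℝ (h t) z a

/-- **NG11** maps which change the canonical one-form by an exact form are symplectic -/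
def S_OM : Prop := ∀ (m k : ℕ) (N : Set (E m)) (P : E m → E m →L[ℝ] E m)
  (Φ : E m × E m → E m × E m) (η : E m × E m → ℝ), IsClosed N → IsMfd k N → IsProjField N P →
  ContDiff ℝ ∞ Φ → ContDiff ℝ ∞ η →
  (∀ z ∈ CT N, ∀ a, IsTan (CT N) z a →
    ⟪(Φ z).2, (fderiv ℝ Φ z a).1⟫ - ⟪z.2, a.1⟫ = fderiv ℝ η z a) →
  ∀ z ∈ CT N, ∀ a b, IsTan (CT N) z a → IsTan (CT N) z b →
    om (fderiv ℝ Φ z a) (fderiv ℝ Φ z b) = om a b

/-- **NG12** after a short time there are no vertical tangencies -/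
def S_NOV : Prop := ∀ (m k : ℕ) (N : Set (E m)) (P : E m → E m →L[ℝ] E m)
  (Λ : Set (E m × E m)) (H : E m × E m → ℝ) (X : E m × E m → E m × E m)
  (φ : ℝ → E m × E m → E m × E m) (h : ℝ → E m × E m → ℝ), IsClosed N → IsProjField N P →
  IsLag k N Λ → IsHam N H X φ h → IsTwisting N Λ H →
  ∃ t, ∀ z ∈ Λ, ∀ a, IsTan Λ z a → (fderiv ℝ (φ t) z a).1 = 0 → a = 0

/-- **NG13** the image of a Lagrangian submanifold, and its tangent vectors -/
def S_PUSH : Prop := ∀ (m k : ℕ) (N : Set (E m)) (Λ : Set (E m × E m))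
  (Φ Φ' : E m × E m → E m × E m), IsLag k N Λ → IsSymp N Φ → IsSymp N Φ' →
  (∀ z, Φ' (Φ z) = z) → (∀ z, Φ (Φ' z) = z) → IsLag k N (Φ '' Λ) ∧
    ∀ z ∈ Λ, ∀ b, IsTan (Φ '' Λ) (Φ z) b ↔ ∃ a, IsTan Λ z a ∧ fderiv ℝ Φ z a = b

/-- **NG14** the primitive on the image -/
def S_PRIM : Prop := ∀ (m k : ℕ) (N : Set (E m)) (Λ : Set (E m × E m))
  (Φ Φ' : E m × E m → E m × E m) (η f : E m × E m → ℝ), IsLag k N Λ → ContDiff ℝ ∞ Φ →
  ContDiff ℝ ∞ Φ' → (∀ z, Φ' (Φ z) = z) → (∀ z, Φ (Φ' z) = z) → ContDiff ℝ ∞ η →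
  (∀ z ∈ CT N, ∀ a, IsTan (CT N) z a →
    ⟪(Φ z).2, (fderiv ℝ Φ z a).1⟫ - ⟪z.2, a.1⟫ = fderiv ℝ η z a) →
  IsPrimitive Λ f → ∃ f', IsPrimitive (Φ '' Λ) f'

/-- **NG15** `Λ` is a graph over `N` near a point which is not a vertical tangency -/
def S_LIFT : Prop := ∀ (m k : ℕ) (N : Set (E m)) (Λ : Set (E m × E m)), IsMfd k N →
  IsMfd k Λ → Λ ⊆ CT N → ∀ z ∈ Λ, ¬ IsVertical Λ z →
  ∃ g : E m → E m × E m, ContDiff ℝ ∞ g ∧ (∀ᶠ q in 𝓝 z.1, q ∈ N → g q ∈ Λ ∧ (g q).1 = q) ∧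
    ∀ᶠ w in 𝓝 z, w ∈ Λ → g w.1 = w

/-- **NG16** primitives are continuous -/
def S_CONT : Prop := ∀ (m k : ℕ) (Λ : Set (E m × E m)) (f : E m × E m → ℝ), IsMfd k Λ →
  IsPrimitive Λ f → ContinuousOn f Λ

/-- **NG17** one sheet -/
def S_ONE : Prop := ∀ (m k : ℕ) (N : Set (E m)) (Λ : Set (E m × E m)) (f : E m × E m → ℝ),
  IsMfd k N → IsLag k N Λ → (∀ z ∈ Λ, ¬ IsVertical Λ z) → IsPrimitive Λ f →
  ∀ z ∈ Λ, ∀ w ∈ Λ, z.1 = w.1 → z = w

/-- **NG18** the section -/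
def S_SEC : Prop := ∀ (m k : ℕ) (N : Set (E m)) (Λ : Set (E m × E m)), IsClosedMfd k N →
  IsLag k N Λ → (∀ z ∈ Λ, ¬ IsVertical Λ z) → (∀ z ∈ Λ, ∀ w ∈ Λ, z.1 = w.1 → z = w) →
  ∃ s : E m → E m, ContDiff ℝ ∞ s ∧ Λ = (fun q => (q, s q)) '' N

/-- **NG19** sections are images of the zero section -/
def S_TRA : Prop := ∀ (m k : ℕ) (N : Set (E m)) (Λ : Set (E m × E m)) (s : E m → E m),
  IsClosedMfd k N → IsLag k N Λ → ContDiff ℝ ∞ s → Λ = (fun q => (q, s q)) '' N → IsImage N Λ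

/-- **NG20** cutting off twisting functions -/
def S_CUT : Prop := ∀ (m k : ℕ) (N : Set (E m)) (Λ : Set (E m × E m)) (K : E m × E m → ℝ),
  IsLag k N Λ → IsTwisting N Λ K → ∃ H, HasCompactSupport H ∧ IsTwisting N Λ H

/-- **NG21** twisting functions from signs -/
def S_SIGN : Prop := ∀ (m k : ℕ) (N : Set (E m)) (Λ : Set (E m × E m))
  (B : E m → E m →L[ℝ] E m), IsLag k N Λ → IsSymmetricField B → HasSigns N Λ B →
  ∃ K, IsTwisting N Λ K

end Pool.Agent.D0H39.NG
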