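import Pool.Agent.D0H39.NG.Bas
import Pool.Agent.D0H39.NL.Stm2

/-!
# Lagrangian submanifolds with small caustics: statements
-/

set_option autoImplicit false

open Set Filter Topology Metric Function
open scoped ContDiff RealInnerProductSpace NNReal

noncomputable section

namespace Pool.Agent.D0H39.NG

variable {m : ℕ}

/-- the vertical tangent vectors of `Λ` at `z` form a space of dimension at most one -/
def IsSimpleAt (Λ : Set (E m × E m)) (z : E m × E m) : Prop :=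
  ∀ a b : E m, IsTan Λ z (0, a) → IsTan Λ z (0, b) →
    ∃ s t : ℝ, (s ≠ 0 ∨ t ≠ 0) ∧ s • a + t • b = 0

/-- near `z` the quadratic form `ε ⟪dq, dp⟫` on the tangent spaces of `Λ` is bounded below by a
multiple of `-‖dq‖²` -/
def SignedAt (Λ : Set (E m × E m)) (z : E m × E m) (ε : ℝ) : Prop :=
  ∃ C r : ℝ, 0 < r ∧ ∀ w ∈ Λ, ‖w - z‖ < r → ∀ a, IsTan Λ w a →
    -C * ‖a.1‖ ^ 2 ≤ ε * ⟪a.1, a.2⟫

/-- near `z` the quadratic form `⟪dq, dp⟫` on the tangent spaces of `Λ` is, up to a sign and up to a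
multiple of `‖dq‖²`, nonnegative -/
def IsSemidefiniteAt (Λ : Set (E m × E m)) (z : E m × E m) : Prop :=
  SignedAt Λ z 1 ∨ SignedAt Λ z (-1)

/-- some neighbourhood of `z` in `Λ` meets every fibre in at most one point -/
def IsInjectiveAt (Λ : Set (E m × E m)) (z : E m × E m) : Prop :=
  ∃ r : ℝ, 0 < r ∧ ∀ w ∈ Λ, ∀ w' ∈ Λ, ‖w - z‖ < r → ‖w' - z‖ < r → w.1 = w'.1 → w = w'

/-- The vertical tangencies do not separate `Λ` near `z`: there are arbitrarily small neighbourhoods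
of `z` in `Λ` in which the points that are not vertical tangencies form a (nonempty) connected
set. -/
def IsThinAt (Λ : Set (E m × E m)) (z : E m × E m) : Prop :=
  ∀ r : ℝ, 0 < r → ∃ W : Set (E m × E m), IsOpen W ∧ z ∈ W ∧ (∀ w ∈ W, ‖w - z‖ < r) ∧
    IsConnected {w | w ∈ Λ ∧ w ∈ W ∧ ¬ IsVertical Λ w}

/-- Cotangent coordinates of `T*N`, over the range of the parametrization `F` of `N` -/
structure IsFlat (k : ℕ) (N : Set (E m)) (F : E k → E m) (κ : E k × E k → E m × E m) : Prop where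
  smooth : ContDiff ℝ ∞ κ
  par : IsPar k N F
  inj : Injective κ
  maps : ∀ w, κ w ∈ CT N
  base : ∀ w, (κ w).1 = F w.1
  lam : ∀ w (v : E k), ⟪(κ w).2, fderiv ℝ F w.1 v⟫ = ⟪w.2, v⟫
  inv : ∀ w₀, ∃ κ' : E m × E m → E k × E k, ContDiff ℝ ∞ κ' ∧
    (∀ᶠ w in 𝓝 w₀, κ' (κ w) = w) ∧ ∀ᶠ y in 𝓝 (κ w₀), y ∈ CT N → κ (κ' y) = y

/-- **NG22** cotangent coordinates exist -/
def S_FLAT : Prop := ∀ (m k : ℕ) (N : Set (E m)), IsMfd k N → ∀ z ∈ CT N,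
  ∃ (F : E k → E m) (κ : E k × E k → E m × E m) (w₀ : E k × E k), IsFlat k N F κ ∧ κ w₀ = z

/-- **NG23** cotangent coordinates are symplectic -/
def S_FOM : Prop := ∀ (m k : ℕ) (N : Set (E m)) (F : E k → E m) (κ : E k × E k → E m × E m),
  IsFlat k N F κ → ∀ w a b, om (fderiv ℝ κ w a) (fderiv ℝ κ w b) = om a b

/-- **NG24** tangent vectors in cotangent coordinates -/
def S_FTAN : Prop := ∀ (m k : ℕ) (N : Set (E m)) (F : E k → E m) (κ : E k × E k → E m × E m)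
  (Λ : Set (E m × E m)), IsFlat k N F κ → Λ ⊆ CT N → ∀ w, κ w ∈ Λ →
  (∀ a, IsTan (κ ⁻¹' Λ) w a ↔ IsTan Λ (κ w) (fderiv ℝ κ w a)) ∧
    ∀ b, IsTan Λ (κ w) b → ∃ a, fderiv ℝ κ w a = b

/-- **NG25** the quadratic form in cotangent coordinates -/
def S_FEST : Prop := ∀ (m k : ℕ) (N : Set (E m)) (F : E k → E m) (κ : E k × E k → E m × E m),
  IsFlat k N F κ → ∀ w₀, ∃ C r : ℝ, 0 < C ∧ 0 < r ∧ ∀ w, ‖w - w₀‖ < r → ∀ a : E k × E k,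
    |⟪(fderiv ℝ κ w a).1, (fderiv ℝ κ w a).2⟫ - ⟪a.1, a.2⟫| ≤ C * ‖a.1‖ ^ 2 ∧
    ‖(fderiv ℝ κ w a).1‖ ≤ C * ‖a.1‖ ∧ ‖a.1‖ ≤ C * ‖(fderiv ℝ κ w a).1‖

/-- **NG26** parametrizations in cotangent coordinates -/
def S_FPAR : Prop := ∀ (m k : ℕ) (N : Set (E m)) (F : E k → E m) (κ : E k × E k → E m × E m)
  (Λ : Set (E m × E m)), IsFlat k N F κ → IsLag k N Λ → ∀ w₀, κ w₀ ∈ Λ →
  ∃ G : E k → E k × E k, G 0 = w₀ ∧ NL.IsInjImmersion G ∧ NL.IsIsotropic G ∧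
    ∀ V : Set (E k), IsOpen V → ∃ U, IsOpen U ∧ G '' V = (κ ⁻¹' Λ) ∩ U

/-- **NG27** the properties of a point in cotangent coordinates -/
def S_FPT : Prop := ∀ (m k : ℕ) (N : Set (E m)) (F : E k → E m) (κ : E k × E k → E m × E m)
  (Λ : Set (E m × E m)), IsFlat k N F κ → IsLag k N Λ → ∀ w₀, κ w₀ ∈ Λ →
  (IsVertical (κ ⁻¹' Λ) w₀ ↔ IsVertical Λ (κ w₀)) ∧
  (IsSimpleAt Λ (κ w₀) → IsSimpleAt (κ ⁻¹' Λ) w₀) ∧
  (∀ ε : ℝ, (ε = 1 ∨ ε = -1) → (SignedAt (κ ⁻¹' Λ) w₀ ε ↔ SignedAt Λ (κ w₀) ε)) ∧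
  (IsInjectiveAt Λ (κ w₀) → IsInjectiveAt (κ ⁻¹' Λ) w₀) ∧
  (IsThinAt Λ (κ w₀) → IsThinAt (κ ⁻¹' Λ) w₀) ∧
  ((∃ δ : ℝ, 0 < δ ∧ ∀ w ∈ κ ⁻¹' Λ, ‖w - w₀‖ < δ → IsVertical (κ ⁻¹' Λ) w) →
    ∃ δ : ℝ, 0 < δ ∧ ∀ y ∈ Λ, ‖y - κ w₀‖ < δ → IsVertical Λ y)

/-- **NG28** local form of NL.S_CHART -/
def S_CHL : Prop := ∀ (n : ℕ) (Λ : Set (E n × E n)) (G : E n → E n × E n), NL.IsInjImmersion G →
  NL.IsIsotropic G → (∀ V : Set (E n), IsOpen V → ∃ U, IsOpen U ∧ G '' V = Λ ∩ U) →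
  ∃ (P : E n →L[ℝ] E n) (η : E n → E n) (ρ r : ℝ), NL.IsChart Λ (G 0) P η ρ r

/-- **NG29** the sign of a chart at a simple point that is not separated by vertical tangencies -/
def S_SGN : Prop := ∀ (n : ℕ) (Λ : Set (E n × E n)) (z : E n × E n) (P : E n →L[ℝ] E n)
  (η : E n → E n) (ρ r : ℝ), NL.IsChart Λ z P η ρ r → IsSimpleAt Λ z → IsThinAt Λ z →
  ∃ ρ₁ r₁ ε M : ℝ, NL.IsGood Λ z P η ρ₁ r₁ ε M

/-- **NG30** a good chart gives a sign -/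
def S_GSG : Prop := ∀ (n : ℕ) (Λ : Set (E n × E n)) (z : E n × E n) (P : E n →L[ℝ] E n)
  (η : E n → E n) (ρ r ε M : ℝ), z ∈ Λ → NL.IsGood Λ z P η ρ r ε M → SignedAt Λ z ε

/-- **NG31** two signs -/
def S_TWO : Prop := ∀ (n : ℕ) (Λ : Set (E n × E n)) (z : E n × E n) (P : E n →L[ℝ] E n)
  (η : E n → E n) (ρ r : ℝ), z ∈ Λ → NL.IsChart Λ z P η ρ r → IsVertical Λ z →
  SignedAt Λ z 1 → SignedAt Λ z (-1) → ¬ IsInjectiveAt Λ z ∧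
    ∃ δ : ℝ, 0 < δ ∧ ∀ w ∈ Λ, ‖w - z‖ < δ → IsVertical Λ w

end Pool.Agent.D0H39.NG
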